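import Pool.Agent.N172.AF.Fin

/-! # The Bezoutian of the partial derivatives -/

set_option autoImplicit false

namespace Pool.Agent.N172.AF

open MvPolynomial Finset
open scoped Matrix Classical

section integral

variable {T : Type*} [CommRing T] [Algebra ℂ T]

/-- The formal integral from `0` to `1`. -/
noncomputable def II : Polynomial T →ₗ[T] T :=
  (Polynomial.basisMonomials T).constr T fun k => algebraMap ℂ T (1 / ((k : ℂ) + 1))

lemma II_monomial (k : ℕ) (a : T) :
    II (Polynomial.monomial k a) = a * algebraMap ℂ T (1 / ((k : ℂ) + 1)) := by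
  have h1 : Polynomial.monomial k a = a • (Polynomial.basisMonomials T) k := by
    rw [Polynomial.coe_basisMonomials, Polynomial.smul_monomial, smul_eq_mul, mul_one]
  rw [h1, map_smul, II, Module.Basis.constr_basis, smul_eq_mul]

lemma II_derivative (p : Polynomial T) :
    II (Polynomial.derivative p) = p.eval 1 - p.eval 0 := by
  induction p using Polynomial.induction_on' with
  | add p q hp hq =>
    rw [Polynomial.derivative_add, map_add, hp, hq, Polynomial.eval_add, Polynomial.eval_add]
    ring
  | monomial k a =>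
    rw [Polynomial.derivative_monomial, II_monomial, Polynomial.eval_monomial,
      Polynomial.eval_monomial, one_pow, mul_one]
    rcases Nat.eq_zero_or_pos k with hk | hk
    · subst hk; simp
    · rw [zero_pow hk.ne', mul_zero, sub_zero, mul_assoc]
      have h1 : ((k : ℕ) : T) = algebraMap ℂ T (k : ℂ) := by rw [map_natCast]
      rw [h1, ← map_mul]
      have h2 : (k : ℂ) * (1 / (((k - 1 : ℕ) : ℂ) + 1)) = 1 := by
        have h3 : ((k - 1 : ℕ) : ℂ) + 1 = k := by
          rw [← Nat.cast_succ]
          congr 1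
          omega
        rw [h3, mul_one_div_cancel]
        exact_mod_cast hk.ne'
      rw [h2, map_one, mul_one]

lemma II_mul_C (p : Polynomial T) (a : T) : II (p * Polynomial.C a) = II p * a := by
  rw [mul_comm, ← Polynomial.smul_eq_C_mul, map_smul, smul_eq_mul, mul_comm]

lemma II_map {T' : Type*} [CommRing T'] [Algebra ℂ T'] (φ : T →+* T')
    (hφ : ∀ a : ℂ, φ (algebraMap ℂ T a) = algebraMap ℂ T' a) (p : Polynomial T) :
    II (p.map φ) = φ (II p) := by
  induction p using Polynomial.induction_on' with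
  | add p q hp hq =>
    rw [Polynomial.map_add, map_add, hp, hq, map_add, map_add]
  | monomial k a =>
    rw [Polynomial.map_monomial, II_monomial, II_monomial, map_mul, hφ]

lemma II_one_sub (m : ℕ) :
    II ((1 - Polynomial.X : Polynomial T) ^ m) = algebraMap ℂ T (1 / ((m : ℂ) + 1)) := by
  have h1 := II_derivative ((1 - Polynomial.X : Polynomial T) ^ (m + 1))
  rw [Polynomial.derivative_pow, Polynomial.derivative_sub, Polynomial.derivative_one,
    Polynomial.derivative_X, zero_sub, mul_neg_one, map_neg, mul_comm, II_mul_C,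
    Polynomial.eval_pow, Polynomial.eval_sub, Polynomial.eval_one, Polynomial.eval_X, sub_self,
    zero_pow (Nat.succ_ne_zero m), Polynomial.eval_pow, Polynomial.eval_sub, Polynomial.eval_one,
    Polynomial.eval_X, sub_zero, one_pow, Nat.add_sub_cancel] at h1
  have h2 : II ((1 - Polynomial.X : Polynomial T) ^ m) * ((m + 1 : ℕ) : T) = 1 := by
    linear_combination -h1
  have h3 : ((m + 1 : ℕ) : T) = algebraMap ℂ T ((m : ℂ) + 1) := by
    rw [map_add, map_natCast, map_one]; push_cast; rfl
  have h4 : ((m : ℂ) + 1) ≠ 0 := by exact_mod_cast Nat.succ_ne_zero m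
  have h5 : algebraMap ℂ T ((m : ℂ) + 1) * algebraMap ℂ T (1 / ((m : ℂ) + 1)) = 1 := by
    rw [← map_mul, mul_one_div_cancel h4, map_one]
  calc II ((1 - Polynomial.X : Polynomial T) ^ m)
      = II ((1 - Polynomial.X : Polynomial T) ^ m) *
          (algebraMap ℂ T ((m : ℂ) + 1) * algebraMap ℂ T (1 / ((m : ℂ) + 1))) := by
        rw [h5, mul_one]
    _ = algebraMap ℂ T (1 / ((m : ℂ) + 1)) := by rw [← mul_assoc, ← h3, h2, one_mul]

end integral

variable {n d : ℕ}

/-- Polynomials in `x` over the polynomials in `y`. -/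
abbrev TT2 (n : ℕ) : Type := MvPolynomial (Fin n) (MvPolynomial (Fin n) ℂ)

/-- The polynomial in `x`. -/
noncomputable def ix (q : MvPolynomial (Fin n) ℂ) : TT2 n := map C q

/-- The restriction to the segment from `y` to `x`. -/
noncomputable def path (q : MvPolynomial (Fin n) ℂ) : Polynomial (TT2 n) :=
  aeval (fun k => Polynomial.C (C (X k)) + Polynomial.X * Polynomial.C (X k - C (X k))) q

lemma path_C (a : ℂ) : path (C a : MvPolynomial (Fin n) ℂ) = Polynomial.C (C (C a)) := by
  rw [path, aeval_C]
  rfl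

lemma path_add (p q : MvPolynomial (Fin n) ℂ) : path (p + q) = path p + path q := map_add _ _ _

lemma path_mul (p q : MvPolynomial (Fin n) ℂ) : path (p * q) = path p * path q := map_mul _ _ _

lemma path_X (k : Fin n) : path (X k : MvPolynomial (Fin n) ℂ) =
    Polynomial.C (C (X k)) + Polynomial.X * Polynomial.C (X k - C (X k)) := aeval_X _ _

lemma path_eval_one (q : MvPolynomial (Fin n) ℂ) : (path q).eval 1 = ix q := by
  induction q using MvPolynomial.induction_on with
  | C a => rw [path_C, Polynomial.eval_C, ix, map_C]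
  | add p q hp hq => rw [path_add, Polynomial.eval_add, hp, hq, ix, ix, ix, map_add]
  | mul_X p k hp =>
    rw [path_mul, Polynomial.eval_mul, hp, path_X, ix, ix, map_mul, map_X]
    congr 1
    simp

lemma path_eval_zero (q : MvPolynomial (Fin n) ℂ) : (path q).eval 0 = C q := by
  induction q using MvPolynomial.induction_on with
  | C a => rw [path_C, Polynomial.eval_C]
  | add p q hp hq => rw [path_add, Polynomial.eval_add, hp, hq, map_add]
  | mul_X p k hp =>
    rw [path_mul, Polynomial.eval_mul, hp, path_X, map_mul]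
    congr 1
    simp

/-- The chain rule. -/
lemma path_derivative (q : MvPolynomial (Fin n) ℂ) :
    Polynomial.derivative (path q) =
      ∑ k, path (pderiv k q) * Polynomial.C (X k - C (X k)) := by
  induction q using MvPolynomial.induction_on with
  | C a =>
    rw [path_C, Polynomial.derivative_C, Finset.sum_eq_zero]
    intro k _
    rw [pderiv_C, path, map_zero, zero_mul]
  | add p q hp hq =>
    rw [path_add, Polynomial.derivative_add, hp, hq, ← Finset.sum_add_distrib]
    refine Finset.sum_congr rfl fun k _ => ?_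
    rw [map_add, path_add, add_mul]
  | mul_X p j hp =>
    rw [path_mul, Polynomial.derivative_mul, hp, Finset.sum_mul]
    have h1 : Polynomial.derivative (path (X j : MvPolynomial (Fin n) ℂ)) =
        Polynomial.C (X j - C (X j)) := by
      rw [path_X]
      simp
    rw [h1]
    have h2 : ∀ k, path (pderiv k (p * X j)) * Polynomial.C (X k - C (X k)) =
        path (pderiv k p) * Polynomial.C (X k - C (X k)) * path (X j) +
          (if k = j then path p * Polynomial.C (X j - C (X j)) else 0) := by
      intro k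
      rw [pderiv_mul, path_add, path_mul, path_mul]
      by_cases hk : k = j
      · subst hk
        rw [if_pos rfl, pderiv_X_self]
        have : path (1 : MvPolynomial (Fin n) ℂ) = 1 := map_one _
        rw [this]
        ring
      · rw [if_neg hk, pderiv_X_of_ne (Ne.symm hk)]
        have : path (0 : MvPolynomial (Fin n) ℂ) = 0 := map_zero _
        rw [this]
        ring
    rw [Finset.sum_congr rfl fun k _ => h2 k, Finset.sum_add_distrib, Finset.sum_ite_eq',
      if_pos (Finset.mem_univ _)]

/-- The divided differences. -/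
noncomputable def dq (k : Fin n) (q : MvPolynomial (Fin n) ℂ) : TT2 n := II (path (pderiv k q))

lemma sum_dq (q : MvPolynomial (Fin n) ℂ) :
    ∑ k, dq k q * (X k - C (X k)) = ix q - C q := by
  rw [← path_eval_one, ← path_eval_zero, ← II_derivative, path_derivative, map_sum]
  exact Finset.sum_congr rfl fun k _ => (II_mul_C _ _).symm

lemma aeval_scale {R' : Type*} [CommRing R'] [Algebra ℂ R'] (u : R') (z : Fin n → R') {m : ℕ}
    {p : MvPolynomial (Fin n) ℂ} (hp : p.IsHomogeneous m) :
    aeval (fun k => u * z k) p = u ^ m * aeval z p := by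
  rw [eq_sum_mon hp, map_sum, map_sum, Finset.mul_sum]
  refine Finset.sum_congr rfl fun γ _ => ?_
  rw [aeval_monomial, aeval_monomial, Finsupp.prod_fintype _ _ (fun i => pow_zero _),
    Finsupp.prod_fintype _ _ (fun i => pow_zero _)]
  have h1 : ∏ i, (u * z i) ^ γ.1 i = u ^ m * ∏ i, z i ^ γ.1 i := by
    rw [Finset.prod_congr rfl fun i _ => mul_pow u (z i) (γ.1 i), Finset.prod_mul_distrib,
      Finset.prod_pow_eq_pow_sum, ← Finsupp.degree_eq_sum, γ.2]
  rw [h1]
  ring

lemma path_map (p : MvPolynomial (Fin n) ℂ) :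
    (path p).map (constantCoeff (R := MvPolynomial (Fin n) ℂ)) =
      aeval (fun k => (1 - Polynomial.X) * Polynomial.C (X k)) p := by
  induction p using MvPolynomial.induction_on with
  | C a =>
    rw [path_C, Polynomial.map_C, constantCoeff_C, aeval_C]
    rfl
  | add p q hp hq => rw [path_add, Polynomial.map_add, hp, hq, map_add]
  | mul_X p k hp =>
    rw [path_mul, Polynomial.map_mul, hp, map_mul, path_X, aeval_X]
    congr 1
    rw [Polynomial.map_add, Polynomial.map_mul, Polynomial.map_C, Polynomial.map_C,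
      Polynomial.map_X, map_sub, constantCoeff_C, constantCoeff_X, zero_sub, map_neg]
    ring

lemma aeval_C_X (p : MvPolynomial (Fin n) ℂ) :
    aeval (fun k => (Polynomial.C (X k) : Polynomial (MvPolynomial (Fin n) ℂ))) p =
      Polynomial.C p := by
  induction p using MvPolynomial.induction_on with
  | C a => rw [aeval_C]; rfl
  | add p q hp hq => rw [map_add, hp, hq, map_add]
  | mul_X p k hp => rw [map_mul, hp, aeval_X, map_mul]

/-- At `x = 0`. -/
lemma coeff_zero_dq {k : Fin n} {q : MvPolynomial (Fin n) ℂ} {m : ℕ}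
    (hq : (pderiv k q).IsHomogeneous m) :
    constantCoeff (dq k q) = C (1 / ((m : ℂ) + 1)) * pderiv k q := by
  have h0 : ∀ a : ℂ, (constantCoeff : TT2 n →+* MvPolynomial (Fin n) ℂ)
      (algebraMap ℂ (TT2 n) a) = algebraMap ℂ (MvPolynomial (Fin n) ℂ) a := by
    intro a
    change constantCoeff (C (C a)) = C a
    rw [constantCoeff_C]
  have h1 := II_map (constantCoeff : TT2 n →+* MvPolynomial (Fin n) ℂ) h0 (path (pderiv k q))
  rw [dq, ← h1, path_map, aeval_scale _ _ hq, aeval_C_X, II_mul_C, II_one_sub]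
  rfl

/-- The Bezoutian. -/
noncomputable def bez (f : MvPolynomial (Fin n) ℂ) : TT2 n :=
  (Matrix.of fun i j : Fin n => dq j (pderiv i f)).det

lemma bez_zero {f : MvPolynomial (Fin n) ℂ} (hf : f.IsHomogeneous d) :
    constantCoeff (bez f) = C ((1 / (((d - 1 - 1 : ℕ) : ℂ) + 1)) ^ n) * Hess f := by
  rw [bez, RingHom.map_det]
  have h1 : (constantCoeff : TT2 n →+* MvPolynomial (Fin n) ℂ).mapMatrix
      (Matrix.of fun i j : Fin n => dq j (pderiv i f)) =
      (C (1 / (((d - 1 - 1 : ℕ) : ℂ) + 1)) : MvPolynomial (Fin n) ℂ) •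
        (Matrix.of fun i j : Fin n => pderiv i (pderiv j f)).transpose := by
    ext1 i j
    rw [RingHom.mapMatrix_apply, Matrix.map_apply, Matrix.of_apply,
      coeff_zero_dq ((hf.pderiv (i := i)).pderiv (i := j)), Matrix.smul_apply,
      Matrix.transpose_apply, Matrix.of_apply, smul_eq_mul]
  rw [h1, Matrix.det_smul, Matrix.det_transpose, Fintype.card_fin, Hess, C_pow]

/-- The differences times the Bezoutian. -/
lemma X_sub_mul_bez (f : MvPolynomial (Fin n) ℂ) (k : Fin n) :
    bez f * (X k - C (X k)) = ∑ i, (Matrix.adjugate (Matrix.of fun i j : Fin n =>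
      dq j (pderiv i f))) k i * (ix (pderiv i f) - C (pderiv i f)) := by
  have h1 : (Matrix.of fun i j : Fin n => dq j (pderiv i f)) *ᵥ (fun k => X k - C (X k)) =
      fun i => ix (pderiv i f) - C (pderiv i f) := by
    ext1 i
    rw [Matrix.mulVec, dotProduct]
    exact sum_dq _
  have h2 := congrArg (fun v => (Matrix.adjugate (Matrix.of fun i j : Fin n =>
    dq j (pderiv i f))) *ᵥ v) h1
  simp only [Matrix.mulVec_mulVec, Matrix.adjugate_mul, Matrix.smul_mulVec, Matrix.one_mulVec]
    at h2
  have h3 := congrFun h2 k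
  rw [Pi.smul_apply, smul_eq_mul] at h3
  rw [bez, h3, Matrix.mulVec, dotProduct]

lemma sub_mul_bez (f g : MvPolynomial (Fin n) ℂ) :
    ∃ u : Fin n → TT2 n, (ix g - C g) * bez f =
      ∑ i, u i * (ix (pderiv i f) - C (pderiv i f)) := by
  refine ⟨fun i => ∑ k, dq k g * (Matrix.adjugate (Matrix.of fun i j : Fin n =>
      dq j (pderiv i f))) k i, ?_⟩
  rw [← sum_dq g, Finset.sum_mul]
  have h1 : ∀ k, dq k g * (X k - C (X k)) * bez f = ∑ i, dq k g *
      (Matrix.adjugate (Matrix.of fun i j : Fin n => dq j (pderiv i f))) k i *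
        (ix (pderiv i f) - C (pderiv i f)) := by
    intro k
    rw [mul_assoc, mul_comm (X k - C (X k)), X_sub_mul_bez, Finset.mul_sum]
    exact Finset.sum_congr rfl fun i _ => by rw [mul_assoc]
  rw [Finset.sum_congr rfl fun k _ => h1 k, Finset.sum_comm]
  refine Finset.sum_congr rfl fun i _ => ?_
  rw [Finset.sum_mul]

/-! ### The functional in the variables `x` -/

/-- The functional in the variables `x`. -/
noncomputable def PX (P : Mon n (n * (d - 2)) → MvPolynomial (Mon n d) ℂ) (c : Mon n d → ℂ)
    (h : TT2 n) : MvPolynomial (Fin n) ℂ :=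
  ∑ γ : Mon n (n * (d - 2)), coeff γ.1 h * C (eval c (P γ))

lemma PX_add (P : Mon n (n * (d - 2)) → MvPolynomial (Mon n d) ℂ) (c : Mon n d → ℂ)
    (h h' : TT2 n) : PX P c (h + h') = PX P c h + PX P c h' := by
  rw [PX, PX, PX, ← Finset.sum_add_distrib]
  exact Finset.sum_congr rfl fun γ _ => by rw [coeff_add, add_mul]

lemma PX_sub (P : Mon n (n * (d - 2)) → MvPolynomial (Mon n d) ℂ) (c : Mon n d → ℂ)
    (h h' : TT2 n) : PX P c (h - h') = PX P c h - PX P c h' := by
  rw [PX, PX, PX, ← Finset.sum_sub_distrib]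
  exact Finset.sum_congr rfl fun γ _ => by rw [coeff_sub, sub_mul]

lemma PX_sum (P : Mon n (n * (d - 2)) → MvPolynomial (Mon n d) ℂ) (c : Mon n d → ℂ)
    {ι : Type*} (s : Finset ι) (h : ι → TT2 n) :
    PX P c (∑ i ∈ s, h i) = ∑ i ∈ s, PX P c (h i) := by
  simp only [PX, coeff_sum, Finset.sum_mul]
  exact Finset.sum_comm

lemma PX_C_mul (P : Mon n (n * (d - 2)) → MvPolynomial (Mon n d) ℂ) (c : Mon n d → ℂ)
    (a : MvPolynomial (Fin n) ℂ) (h : TT2 n) : PX P c (C a * h) = a * PX P c h := by
  rw [PX, PX, Finset.mul_sum]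
  exact Finset.sum_congr rfl fun γ _ => by rw [coeff_C_mul, mul_assoc]

lemma LL_mul_poly (P : Mon n (n * (d - 2)) → MvPolynomial (Mon n d) ℂ)
    (h1 : ∀ (α : Fin n →₀ ℕ) (i : Fin n), α.degree + (d - 1) = n * (d - 2) →
        ∑ γ : Mon n (n * (d - 2)), coeff γ.1 (monomial α 1 * pderiv i (gen n d)) * P γ = 0)
    (c : Mon n d → ℂ) (i : Fin n) (q : MvPolynomial (Fin n) ℂ) :
    ∑ γ : Mon n (n * (d - 2)), coeff γ.1 (q * pderiv i (form c)) * eval c (P γ) = 0 := by
  rw [← LL_coe, MvPolynomial.coe_mul]
  exact LL_mul P h1 c i _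

lemma PX_mul_ix (P : Mon n (n * (d - 2)) → MvPolynomial (Mon n d) ℂ)
    (h1 : ∀ (α : Fin n →₀ ℕ) (i : Fin n), α.degree + (d - 1) = n * (d - 2) →
        ∑ γ : Mon n (n * (d - 2)), coeff γ.1 (monomial α 1 * pderiv i (gen n d)) * P γ = 0)
    (c : Mon n d → ℂ) (i : Fin n) (u : TT2 n) : PX P c (u * ix (pderiv i (form c))) = 0 := by
  induction u using MvPolynomial.induction_on' with
  | monomial α a =>
    have h2 : (monomial α a : TT2 n) = C a * ix (monomial α 1) := by
      rw [ix, map_monomial, map_one, C_mul_monomial, mul_one]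
    rw [h2, mul_assoc, PX_C_mul]
    have h3 : ix (monomial α 1) * ix (pderiv i (form c)) =
        ix (monomial α 1 * pderiv i (form c)) := by rw [ix, ix, ix, map_mul]
    have h4 : PX P c (ix (monomial α 1 * pderiv i (form c))) = 0 := by
      have h5 := congrArg (C : ℂ → MvPolynomial (Fin n) ℂ)
        (LL_mul_poly P h1 c i (monomial α 1))
      rw [map_sum, map_zero] at h5
      rw [PX, ← h5]
      refine Finset.sum_congr rfl fun γ _ => ?_
      rw [ix, coeff_map, map_mul]
    rw [h3, h4, mul_zero]
  | add p q hp hq => rw [add_mul, PX_add, hp, hq, add_zero]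

lemma PX_ix_mul (P : Mon n (n * (d - 2)) → MvPolynomial (Mon n d) ℂ) (c : Mon n d → ℂ)
    {g : MvPolynomial (Fin n) ℂ} (hg : g.IsHomogeneous (n * (d - 2))) (h : TT2 n) :
    PX P c (ix g * h) = constantCoeff h *
      C (∑ γ : Mon n (n * (d - 2)), coeff γ.1 g * eval c (P γ)) := by
  rw [PX, map_sum, Finset.mul_sum]
  refine Finset.sum_congr rfl fun γ _ => ?_
  have h2 : coeff γ.1 (ix g * h) = C (coeff γ.1 g) * constantCoeff h := by
    rw [coeff_mul, Finset.sum_eq_single (γ.1, 0)]
    · rw [ix, coeff_map]; rfl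
    · intro x hx hne
      rw [Finset.HasAntidiagonal.mem_antidiagonal] at hx
      rw [ix, coeff_map, hg.coeff_eq_zero, map_zero, zero_mul]
      intro h3
      apply hne
      have h4 := congrArg Finsupp.degree hx
      rw [map_add, γ.2, h3] at h4
      have h5 : x.2 = 0 := by
        rw [← Finsupp.degree_eq_zero_iff]; omega
      rw [h5, add_zero] at hx
      exact Prod.ext hx h5
    · intro h3
      exact absurd (Finset.HasAntidiagonal.mem_antidiagonal.2 (add_zero γ.1)) h3
  rw [h2, map_mul]
  ring

end Pool.Agent.N172.AF
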