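import Mathlib

/-! # Forms, their coefficient vectors, Macaulay type matrices in degree `n(d-2)` -/

set_option autoImplicit false

namespace Pool.Agent.N172.AF

open MvPolynomial Finset

/-- Exponents of the monomials of degree `k` in `n` variables. -/
abbrev Mon (n k : ℕ) : Type := {α : Fin n →₀ ℕ // α.degree = k}

noncomputable instance (n k : ℕ) : Fintype (Mon n k) :=
  (Finsupp.finite_of_degree_eq (σ := Fin n) k).fintype

/-- The form of degree `d` with coefficients `c`. -/
noncomputable def form {n d : ℕ} {A : Type*} [CommRing A] (c : Mon n d → A) :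
    MvPolynomial (Fin n) A :=
  ∑ α, monomial α.1 (c α)

/-- The Hessian determinant. -/
noncomputable def Hess {n : ℕ} {A : Type*} [CommRing A] (f : MvPolynomial (Fin n) A) :
    MvPolynomial (Fin n) A :=
  (Matrix.of fun i j : Fin n => pderiv i (pderiv j f)).det

section basic

variable {n d : ℕ} {A : Type*} [CommRing A]

lemma form_homog (c : Mon n d → A) : (form c).IsHomogeneous d := by
  unfold form
  exact IsHomogeneous.sum _ _ _ fun α _ => isHomogeneous_monomial _ α.2

lemma map_form {B : Type*} [CommRing B] (φ : A →+* B) (c : Mon n d → A) :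
    map φ (form c) = form fun α => φ (c α) := by
  simp [form, map_sum, map_monomial]

lemma map_Hess {B : Type*} [CommRing B] (φ : A →+* B) (f : MvPolynomial (Fin n) A) :
    map φ (Hess f) = Hess (map φ f) := by
  unfold Hess
  rw [RingHom.map_det]
  congr 1
  ext1 i j
  simp [pderiv_map]

/-- A form of degree `k` is the sum of its terms. -/
lemma eq_sum_mon {k : ℕ} {h : MvPolynomial (Fin n) A} (hh : h.IsHomogeneous k) :
    h = ∑ γ : Mon n k, monomial γ.1 (coeff γ.1 h) := by
  classical
  ext m
  rw [coeff_sum]
  by_cases hm : m.degree = k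
  · rw [Finset.sum_eq_single (⟨m, hm⟩ : Mon n k)]
    · simp
    · intro b _ hb
      rw [coeff_monomial, if_neg]
      intro h1
      exact hb (Subtype.ext h1)
    · intro h1
      exact absurd (Finset.mem_univ _) h1
  · rw [hh.coeff_eq_zero hm, Finset.sum_eq_zero]
    intro b _
    rw [coeff_monomial, if_neg]
    intro h1
    exact hm (h1 ▸ b.2)

lemma coeff_form (c : Mon n d → A) (α : Mon n d) : coeff α.1 (form c) = c α := by
  classical
  unfold form
  rw [coeff_sum, Finset.sum_eq_single α]
  · simp
  · intro b _ hb
    rw [coeff_monomial, if_neg]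
    intro h1
    exact hb (Subtype.ext h1)
  · intro h1
    exact absurd (Finset.mem_univ _) h1

lemma form_coeff {h : MvPolynomial (Fin n) A} (hh : h.IsHomogeneous d) :
    form (fun α : Mon n d => coeff α.1 h) = h := (eq_sum_mon hh).symm

lemma form_add (a b : Mon n d → A) : form (a + b) = form a + form b := by
  simp [form, Finset.sum_add_distrib]

lemma form_smul (t : A) (b : Mon n d → A) : form (t • b) = C t * form b := by
  simp [form, Finset.mul_sum, C_mul_monomial]

lemma Hess_homog {f : MvPolynomial (Fin n) A} (hf : f.IsHomogeneous d) :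
    (Hess f).IsHomogeneous (n * (d - 2)) := by
  unfold Hess
  rw [Matrix.det_apply]
  refine IsHomogeneous.sum _ _ _ fun σ _ => ?_
  have h1 : (∏ i : Fin n, (Matrix.of fun i j : Fin n => pderiv i (pderiv j f)) (σ i) i).IsHomogeneous
      (∑ _i : Fin n, (d - 2)) := by
    refine IsHomogeneous.prod _ _ _ fun i _ => ?_
    exact ((hf.pderiv (i := i)).pderiv (i := σ i))
  rw [Finset.sum_const, Finset.card_univ, Fintype.card_fin, smul_eq_mul] at h1
  rcases Int.units_eq_one_or (Equiv.Perm.sign σ) with h | h
  · rw [h, one_smul]; exact h1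
  · rw [h, Units.neg_smul, one_smul]; exact h1.neg

end basic

end Pool.Agent.N172.AF
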