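import Pool.Agent.N172.AF.Fam

/-! # Diagonal forms -/

set_option autoImplicit false

namespace Pool.Agent.N172.AF

open MvPolynomial Finset
open scoped Matrix Classical

variable {n d : ℕ}

/-- The diagonal form. -/
noncomputable def diagf (d : ℕ) (c : Fin n → ℂ) : MvPolynomial (Fin n) ℂ :=
  ∑ j, C (c j) * X j ^ d

/-- Its coefficient vector. -/
noncomputable def cd (d : ℕ) (c : Fin n → ℂ) : Mon n d → ℂ := fun α => coeff α.1 (diagf d c)

lemma diagf_homog (c : Fin n → ℂ) : (diagf d c).IsHomogeneous d := by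
  refine IsHomogeneous.sum _ _ _ fun j _ => ?_
  have h1 : (X j ^ d : MvPolynomial (Fin n) ℂ).IsHomogeneous d := by
    simpa using (isHomogeneous_X ℂ j).pow d
  have h3 := (isHomogeneous_C (Fin n) (c j)).mul h1
  rwa [zero_add] at h3

lemma form_cd (c : Fin n → ℂ) : form (cd d c) = diagf d c := form_coeff (diagf_homog c)

lemma pderiv_diagf (c : Fin n → ℂ) (l : Fin n) :
    pderiv l (diagf d c) = C (d * c l) * X l ^ (d - 1) := by
  rw [diagf, map_sum, Finset.sum_eq_single l]
  · rw [← smul_eq_C_mul, Derivation.map_smul, smul_eq_C_mul, pderiv_pow, pderiv_X_self, mul_one,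
      ← mul_assoc]
    congr 1
    rw [C_mul, map_natCast]
    ring
  · intro j _ hj
    rw [← smul_eq_C_mul, Derivation.map_smul, pderiv_X_pow_ne hj.symm, smul_zero]
  · intro h; exact absurd (Finset.mem_univ _) h

lemma prod_C_X_pow (a : Fin n → ℂ) (e : ℕ) (ε : Fin n →₀ ℕ) (hε : ∀ j, ε j = e) :
    ∏ j, (C (a j) * X j ^ e : MvPolynomial (Fin n) ℂ) = monomial ε (∏ j, a j) := by
  rw [Finset.prod_mul_distrib, ← map_prod]
  have h1 : ∏ j, (X j ^ e : MvPolynomial (Fin n) ℂ) = monomial ε 1 := by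
    rw [monomial_eq, C_1, one_mul, Finsupp.prod_fintype _ _ (fun i => pow_zero _)]
    exact Finset.prod_congr rfl fun j _ => by rw [hε]
  rw [h1, C_mul_monomial, mul_one]

lemma Hess_diagf (c : Fin n → ℂ) :
    Hess (diagf d c) = monomial (muE n d).1 (∏ j, ((d : ℂ) * ((d - 1 : ℕ) : ℂ) * c j)) := by
  have h1 : (Matrix.of fun m l : Fin n => pderiv m (pderiv l (diagf d c))) =
      Matrix.diagonal fun l => C ((d : ℂ) * ((d - 1 : ℕ) : ℂ) * c l) * X l ^ (d - 2) := by
    ext1 m l
    rw [Matrix.of_apply, pderiv_diagf, ← smul_eq_C_mul, Derivation.map_smul]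
    by_cases h : m = l
    · subst h
      rw [Matrix.diagonal_apply_eq, pderiv_pow, pderiv_X_self, mul_one, smul_eq_C_mul, ← mul_assoc,
        show d - 1 - 1 = d - 2 by omega]
      congr 1
      simp only [C_mul, map_natCast]
      ring
    · rw [Matrix.diagonal_apply_ne _ h, pderiv_X_pow_ne h, smul_zero]
  rw [Hess, h1, Matrix.det_diagonal]
  exact prod_C_X_pow _ _ _ fun j => muE_apply j

lemma DD_diag_ne (hd : 3 ≤ d) (i : Fin n) (c : Fin n → ℂ) (hc : ∀ j, c j ≠ 0) :
    eval (cd d c) (DD (sel d i) (muE n d)) ≠ 0 := by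
  rw [eval_DD, form_cd]
  have h0 : (d : ℂ) ≠ 0 := by
    rw [Nat.cast_ne_zero]; omega
  have h0' : ((d - 1 : ℕ) : ℂ) ≠ 0 := by
    rw [Nat.cast_ne_zero]; omega
  have h1 : mat (diagf d c) (sel d i) (muE n d) (Hess (diagf d c)) =
      Matrix.diagonal fun β => if β = muE n d then ∏ j, ((d : ℂ) * ((d - 1 : ℕ) : ℂ) * c j)
        else d * c (jj d i β.1) := by
    ext γ β
    rw [mat, Matrix.of_apply]
    have h2 : colp (diagf d c) (sel d i) (muE n d) (Hess (diagf d c)) β =
        monomial β.1 (if β = muE n d then ∏ j, ((d : ℂ) * ((d - 1 : ℕ) : ℂ) * c j)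
        else d * c (jj d i β.1)) := by
      by_cases hβ : β = muE n d
      · rw [hβ, colp_same, if_pos rfl, Hess_diagf]
      · rw [colp_ne _ _ _ _ hβ, if_neg hβ, sel, if_neg hβ, pderiv_diagf, X_pow_eq_monomial,
          C_mul_monomial, monomial_mul, one_mul, mul_one]
        have h7 : β.1 - Finsupp.single (jj d i β.1) (d - 1) + Finsupp.single (jj d i β.1) (d - 1)
            = β.1 := by
          apply tsub_add_cancel_of_le
          rw [Finsupp.single_le_iff]
          exact le_jj hd i hβ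
        dsimp only
        rw [h7]
    rw [h2, coeff_monomial, Matrix.diagonal_apply]
    by_cases h : γ = β
    · rw [if_pos h, if_pos (by rw [h]), h]
    · rw [if_neg h, if_neg]
      intro h3
      exact h (Subtype.ext h3.symm)
  rw [h1, Matrix.det_diagonal, Finset.prod_ne_zero_iff]
  intro β _
  split_ifs
  · rw [Finset.prod_ne_zero_iff]
    intro j _
    exact mul_ne_zero (mul_ne_zero h0 h0') (hc j)
  · exact mul_ne_zero h0 (hc _)

/-- At `s = 0` the family is diagonal. -/
lemma cf_zero (hd : 3 ≤ d) (i : Fin n) (c η : Fin n → ℂ) (t : ℂ) :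
    cf d i c η (0 : ℂ) t = cd d (Function.update c i t) := by
  ext α
  rw [cf, cd]
  congr 1
  rw [fam, base, diagf, ← Finset.add_sum_erase _ _ (Finset.mem_univ i), Function.update_self]
  congr 1
  refine Finset.sum_congr rfl fun j hj => ?_
  rw [Function.update_of_ne (Finset.ne_of_mem_erase hj), zero_mul, zero_pow (by omega), mul_zero,
    C_0, zero_mul, sub_zero]
  rfl

/-- `D` is homogeneous in the form. -/
lemma DD_smul_ne (i : Fin n) (v : Mon n d → ℂ) (l : ℂ) (hl : l ≠ 0)
    (h : eval v (DD (sel d i) (muE n d)) ≠ 0) : eval (l • v) (DD (sel d i) (muE n d)) ≠ 0 := by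
  rw [eval_DD] at h ⊢
  have hH : Hess (form (l • v)) = C (l ^ n) * Hess (form v) := by
    have h1 : (Matrix.of fun m k : Fin n => pderiv m (pderiv k (form (l • v)))) =
        (C l : MvPolynomial (Fin n) ℂ) •
          (Matrix.of fun m k : Fin n => pderiv m (pderiv k (form v))) := by
      ext1 m k
      rw [Matrix.smul_apply, Matrix.of_apply, Matrix.of_apply, form_smul, ← smul_eq_C_mul,
        Derivation.map_smul, Derivation.map_smul, smul_eq_C_mul, smul_eq_mul]
    rw [Hess, h1, Matrix.det_smul, Fintype.card_fin, ← C_pow, Hess]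
  have h2 : mat (form (l • v)) (sel d i) (muE n d) (Hess (form (l • v))) =
      Matrix.of fun γ β => (if β = muE n d then l ^ n else l) *
        mat (form v) (sel d i) (muE n d) (Hess (form v)) γ β := by
    ext γ β
    rw [Matrix.of_apply, mat, mat, Matrix.of_apply, Matrix.of_apply, ← coeff_C_mul]
    congr 1
    by_cases hβ : β = muE n d
    · rw [hβ, colp_same, colp_same, if_pos rfl, hH]
    · rw [colp_ne _ _ _ _ hβ, colp_ne _ _ _ _ hβ, if_neg hβ, form_smul, ← smul_eq_C_mul,
        Derivation.map_smul, smul_eq_C_mul]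
      ring
  rw [h2, Matrix.det_mul_row]
  refine mul_ne_zero ?_ h
  rw [Finset.prod_ne_zero_iff]
  intro β _
  split_ifs
  · exact pow_ne_zero _ hl
  · exact hl

end Pool.Agent.N172.AF
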