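import Pool.Agent.N172.AF.Bez

/-! # Existence and uniqueness of the values of the associated form -/

set_option autoImplicit false

namespace Pool.Agent.N172.AF

open MvPolynomial Finset
open scoped Matrix Classical

variable {n d : ℕ}

lemma hc_mul {F : MvPolynomial (Fin n) ℂ} {e ν : ℕ} (hF : F.IsHomogeneous e) (he : e ≤ ν)
    (q : MvPolynomial (Fin n) ℂ) :
    homogeneousComponent ν (q * F) = homogeneousComponent (ν - e) q * F := by
  ext γ
  rw [coeff_homogeneousComponent, coeff_mul, coeff_mul]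
  split_ifs with h
  · refine Finset.sum_congr rfl fun x hx => ?_
    rw [Finset.HasAntidiagonal.mem_antidiagonal] at hx
    rw [coeff_homogeneousComponent]
    by_cases hx2 : x.2.degree = e
    · rw [if_pos]
      have := congrArg Finsupp.degree hx
      rw [map_add, h, hx2] at this
      omega
    · rw [hF.coeff_eq_zero hx2, mul_zero, mul_zero]
  · symm
    refine Finset.sum_eq_zero fun x hx => ?_
    rw [Finset.HasAntidiagonal.mem_antidiagonal] at hx
    rw [coeff_homogeneousComponent]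
    by_cases hx2 : x.2.degree = e
    · rw [if_neg, zero_mul]
      intro h3
      apply h
      have := congrArg Finsupp.degree hx
      rw [map_add, h3, hx2] at this
      omega
    · rw [hF.coeff_eq_zero hx2, mul_zero]

lemma hc_self {F : MvPolynomial (Fin n) ℂ} {ν : ℕ} (hF : F.IsHomogeneous ν) :
    homogeneousComponent ν F = F := by
  rw [homogeneousComponent_of_mem ((mem_homogeneousSubmodule _ _).2 hF), if_pos rfl]

/-- The functional on polynomials. -/
noncomputable def ph (P : Mon n (n * (d - 2)) → MvPolynomial (Mon n d) ℂ) (c : Mon n d → ℂ)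
    (g : MvPolynomial (Fin n) ℂ) : ℂ :=
  ∑ γ : Mon n (n * (d - 2)), coeff γ.1 g * eval c (P γ)

/-- The main congruence. -/
lemma main_cong (hn : 2 ≤ n) (hd : 3 ≤ d)
    (P : Mon n (n * (d - 2)) → MvPolynomial (Mon n d) ℂ)
    (h1 : ∀ (α : Fin n →₀ ℕ) (i : Fin n), α.degree + (d - 1) = n * (d - 2) →
        ∑ γ : Mon n (n * (d - 2)), coeff γ.1 (monomial α 1 * pderiv i (gen n d)) * P γ = 0)
    (c : Mon n d → ℂ) {g : MvPolynomial (Fin n) ℂ} (hg : g.IsHomogeneous (n * (d - 2))) :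
    ∃ q : Fin n → MvPolynomial (Fin n) ℂ,
      C ((1 / (((d - 1 - 1 : ℕ) : ℂ) + 1)) ^ n * ph P c g) * Hess (form c) -
        C (coeff 0 (PX P c (bez (form c)))) * g = ∑ i, q i * pderiv i (form c) := by
  obtain ⟨u, hu⟩ := sub_mul_bez (form c) g
  have h2 := congrArg (PX P c) hu
  rw [sub_mul, PX_sub, PX_ix_mul P c hg, PX_C_mul, bez_zero (form_homog c), PX_sum] at h2
  have h3 : ∀ i, PX P c (u i * (ix (pderiv i (form c)) - C (pderiv i (form c)))) =
      -PX P c (u i) * pderiv i (form c) := by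
    intro i
    rw [mul_sub, PX_sub, PX_mul_ix P h1, mul_comm (u i) (C _), PX_C_mul]
    ring
  rw [Finset.sum_congr rfl fun i _ => h3 i] at h2
  have hle : d - 1 ≤ n * (d - 2) := by
    have := sel_degree (n := n) hn hd ⟨0, by omega⟩ (muE n d)
    omega
  rw [show (∑ γ : Mon n (n * (d - 2)), coeff γ.1 g * eval c (P γ)) = ph P c g from rfl,
    mul_right_comm, ← C_mul] at h2
  have h4 := congrArg (homogeneousComponent (n * (d - 2))) h2
  rw [map_sub, map_sum, mul_comm g, hc_mul hg le_rfl, Nat.sub_self, homogeneousComponent_zero,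
    hc_self] at h4
  · refine ⟨fun i => homogeneousComponent (n * (d - 2) - (d - 1)) (-PX P c (u i)), ?_⟩
    rw [h4]
    exact Finset.sum_congr rfl fun i _ => hc_mul ((form_homog c).pderiv) hle _
  · have := (isHomogeneous_C (Fin n) ((1 / (((d - 1 - 1 : ℕ) : ℂ) + 1)) ^ n *
      ph P c g)).mul (Hess_homog (form_homog c))
    rwa [zero_add] at this

lemma ph_sub (P : Mon n (n * (d - 2)) → MvPolynomial (Mon n d) ℂ) (c : Mon n d → ℂ)
    (g h : MvPolynomial (Fin n) ℂ) (a b : ℂ) :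
    ph P c (C a * g - C b * h) = a * ph P c g - b * ph P c h := by
  rw [ph, ph, ph, Finset.mul_sum, Finset.mul_sum, ← Finset.sum_sub_distrib]
  refine Finset.sum_congr rfl fun γ _ => ?_
  rw [coeff_sub, coeff_C_mul, coeff_C_mul]
  ring

/-- Every form of the socle degree is a multiple of the Hessian modulo the partial derivatives. -/
theorem exists_mem (hn : 2 ≤ n) (hd : 3 ≤ d)
    (P : Mon n (n * (d - 2)) → MvPolynomial (Mon n d) ℂ)
    (h1 : ∀ (α : Fin n →₀ ℕ) (i : Fin n), α.degree + (d - 1) = n * (d - 2) →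
        ∑ γ : Mon n (n * (d - 2)), coeff γ.1 (monomial α 1 * pderiv i (gen n d)) * P γ = 0)
    (Δ : MvPolynomial (Mon n d) ℂ)
    (h2 : ∑ γ : Mon n (n * (d - 2)), coeff γ.1 (Hess (gen n d)) * P γ = Δ)
    (c : Mon n d → ℂ) (hc : eval c Δ ≠ 0) {g : MvPolynomial (Fin n) ℂ}
    (hg : g.IsHomogeneous (n * (d - 2))) :
    ∃ a : ℂ, ∃ q : Fin n → MvPolynomial (Fin n) ℂ,
      g - C a * Hess (form c) = ∑ i, q i * pderiv i (form c) := by
  set κ : ℂ := (1 / (((d - 1 - 1 : ℕ) : ℂ) + 1)) ^ n with hκ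
  have hκ0 : κ ≠ 0 := by
    rw [hκ]
    refine pow_ne_zero _ (one_div_ne_zero ?_)
    exact_mod_cast Nat.succ_ne_zero (d - 1 - 1)
  have hHess : ph P c (Hess (form c)) = eval c Δ := by
    have := LL_Hess P Δ h2 c
    rwa [LL_coe] at this
  have hker : ∀ q : Fin n → MvPolynomial (Fin n) ℂ, ph P c (∑ i, q i * pderiv i (form c)) = 0 := by
    intro q
    have h3 : ∀ i, ∑ γ : Mon n (n * (d - 2)), coeff γ.1 (q i * pderiv i (form c)) *
        eval c (P γ) = 0 := fun i => LL_mul_poly P h1 c i (q i)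
    rw [ph]
    simp only [coeff_sum, Finset.sum_mul]
    rw [Finset.sum_comm]
    exact Finset.sum_eq_zero fun i _ => h3 i
  set b0 := coeff 0 (PX P c (bez (form c))) with hb0
  obtain ⟨q, hq⟩ := main_cong hn hd P h1 c (Hess_homog (form_homog c))
  have h3 := congrArg (ph P c) hq
  rw [ph_sub, hker, hHess, ← hκ, ← hb0, ← sub_mul] at h3
  have h4 : b0 = κ * eval c Δ := (sub_eq_zero.1 ((mul_eq_zero.1 h3).resolve_right hc)).symm
  obtain ⟨q', hq'⟩ := main_cong hn hd P h1 c hg
  rw [← hκ, ← hb0, h4] at hq'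
  refine ⟨ph P c g / eval c Δ, fun i => C (-(κ * eval c Δ)⁻¹) * q' i, ?_⟩
  have h5 : ∑ i, C (-(κ * eval c Δ)⁻¹) * q' i * pderiv i (form c) =
      C (-(κ * eval c Δ)⁻¹) * ∑ i, q' i * pderiv i (form c) := by
    rw [Finset.mul_sum]
    exact Finset.sum_congr rfl fun i _ => by rw [mul_assoc]
  rw [h5, ← hq', mul_sub, ← mul_assoc, ← mul_assoc, ← C_mul, ← C_mul]
  have h6 : -(κ * eval c Δ)⁻¹ * (κ * ph P c g) = -(ph P c g / eval c Δ) := by
    field_simp
  have h7 : -(κ * eval c Δ)⁻¹ * (κ * eval c Δ) = -1 := by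
    rw [neg_mul, inv_mul_cancel₀ (mul_ne_zero hκ0 hc)]
  rw [h6, h7, C_neg, C_neg, C_1]
  ring

end Pool.Agent.N172.AF
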