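import Pool.Agent.N172.AF.Gen

/-! # The family of forms on a line -/

set_option autoImplicit false

namespace Pool.Agent.N172.AF

open MvPolynomial Finset
open scoped Matrix Classical

variable {n d : ℕ}

/-! ### Degrees in the parameter -/

/-- All coefficients have degree at most `k` in the parameter. -/
def Dle (k : ℕ) (q : MvPolynomial (Fin n) (Polynomial ℂ)) : Prop :=
  ∀ γ, (coeff γ q).natDegree ≤ k

lemma Dle.mono {k l : ℕ} (h : k ≤ l) {q : MvPolynomial (Fin n) (Polynomial ℂ)} (hq : Dle k q) :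
    Dle l q := fun γ => (hq γ).trans h

lemma Dle.add {k : ℕ} {q r : MvPolynomial (Fin n) (Polynomial ℂ)} (hq : Dle k q) (hr : Dle k r) :
    Dle k (q + r) := fun γ => by
  rw [coeff_add]
  exact (Polynomial.natDegree_add_le _ _).trans (max_le (hq γ) (hr γ))

lemma Dle.mul {k l : ℕ} {q r : MvPolynomial (Fin n) (Polynomial ℂ)} (hq : Dle k q)
    (hr : Dle l r) : Dle (k + l) (q * r) := fun γ => by
  rw [coeff_mul]
  refine Polynomial.natDegree_sum_le_of_forall_le _ _ fun x _ => ?_
  exact Polynomial.natDegree_mul_le.trans (add_le_add (hq _) (hr _))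

lemma Dle.sum {ι : Type*} (s : Finset ι) {k : ℕ} {q : ι → MvPolynomial (Fin n) (Polynomial ℂ)}
    (hq : ∀ x ∈ s, Dle k (q x)) : Dle k (∑ x ∈ s, q x) := fun γ => by
  rw [coeff_sum]
  exact Polynomial.natDegree_sum_le_of_forall_le _ _ fun x hx => hq x hx γ

lemma Dle.map_C (q : MvPolynomial (Fin n) ℂ) : Dle 0 (map Polynomial.C q) := fun γ => by
  rw [coeff_map, Polynomial.natDegree_C]

lemma Dle.prod {ι : Type*} (s : Finset ι) {k : ι → ℕ}
    {q : ι → MvPolynomial (Fin n) (Polynomial ℂ)}
    (hq : ∀ x ∈ s, Dle (k x) (q x)) : Dle (∑ x ∈ s, k x) (∏ x ∈ s, q x) := by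
  induction s using Finset.induction_on with
  | empty =>
    rw [Finset.prod_empty, Finset.sum_empty]
    have := Dle.map_C (1 : MvPolynomial (Fin n) ℂ)
    rwa [map_one] at this
  | insert a s ha ih =>
    rw [Finset.prod_insert ha, Finset.sum_insert ha]
    exact (hq a (Finset.mem_insert_self _ _)).mul
      (ih fun x hx => hq x (Finset.mem_insert_of_mem hx))

lemma Dle.X_mul_map_C (q : MvPolynomial (Fin n) ℂ) :
    Dle 1 (C Polynomial.X * map Polynomial.C q) := fun γ => by
  rw [coeff_C_mul, coeff_map]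
  exact (Polynomial.natDegree_mul_le.trans (by simp))

/-! ### The family -/

/-- The part of the family which does not involve the line parameter. -/
noncomputable def base (d : ℕ) (i : Fin n) (c η : Fin n → ℂ) {A : Type*} [CommRing A]
    [Algebra ℂ A] (s : A) : MvPolynomial (Fin n) A :=
  ∑ j ∈ univ.erase i, C (algebraMap ℂ A (c j)) *
    (X j ^ d - C (d * (s * algebraMap ℂ A (η j)) ^ (d - 1)) * (X j * X i ^ (d - 1)))

/-- The family. -/
noncomputable def fam (d : ℕ) (i : Fin n) (c η : Fin n → ℂ) {A : Type*} [CommRing A]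
    [Algebra ℂ A] (s t : A) : MvPolynomial (Fin n) A :=
  C t * X i ^ d + base d i c η s

/-- Its coefficient vector. -/
noncomputable def cf (d : ℕ) (i : Fin n) (c η : Fin n → ℂ) {A : Type*} [CommRing A]
    [Algebra ℂ A] (s t : A) : Mon n d → A := fun α => coeff α.1 (fam d i c η s t)

section

variable {A B : Type*} [CommRing A] [Algebra ℂ A] [CommRing B] [Algebra ℂ B]

lemma map_base (φ : A →ₐ[ℂ] B) (i : Fin n) (c η : Fin n → ℂ) (s : A) :
    map (φ : A →+* B) (base d i c η s) = base d i c η (φ s) := by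
  simp [base, map_sum]

lemma map_fam (φ : A →ₐ[ℂ] B) (i : Fin n) (c η : Fin n → ℂ) (s t : A) :
    map (φ : A →+* B) (fam d i c η s t) = fam d i c η (φ s) (φ t) := by
  rw [fam, map_add, map_base, map_mul, map_C, map_pow, map_X, fam]
  rfl

lemma map_cf (φ : A →ₐ[ℂ] B) (i : Fin n) (c η : Fin n → ℂ) (s t : A) (α : Mon n d) :
    φ (cf d i c η s t α) = cf d i c η (φ s) (φ t) α := by
  rw [cf, cf, ← map_fam, coeff_map]
  rfl

lemma base_homog (hd : 1 ≤ d) (i : Fin n) (c η : Fin n → ℂ) (s : A) :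
    (base d i c η s).IsHomogeneous d := by
  refine IsHomogeneous.sum _ _ _ fun j _ => ?_
  rw [← zero_add d]
  refine (isHomogeneous_C _ _).mul ?_
  rw [zero_add]
  have h1 : (X j ^ d : MvPolynomial (Fin n) A).IsHomogeneous d := by
    simpa using (isHomogeneous_X A j).pow d
  refine h1.sub ?_
  have h2 : ((X j : MvPolynomial (Fin n) A) * X i ^ (d - 1)).IsHomogeneous d := by
    have := (isHomogeneous_X A j).mul ((isHomogeneous_X A i).pow (d - 1))
    rwa [show 1 + 1 * (d - 1) = d by omega] at this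
  have h3 := (isHomogeneous_C (Fin n) (d * (s * algebraMap ℂ A (η j)) ^ (d - 1))).mul h2
  rwa [zero_add] at h3

lemma fam_homog (hd : 1 ≤ d) (i : Fin n) (c η : Fin n → ℂ) (s t : A) :
    (fam d i c η s t).IsHomogeneous d := by
  refine IsHomogeneous.add ?_ (base_homog hd i c η s)
  have h1 : (X i ^ d : MvPolynomial (Fin n) A).IsHomogeneous d := by
    simpa using (isHomogeneous_X A i).pow d
  have h3 := (isHomogeneous_C (Fin n) t).mul h1
  rwa [zero_add] at h3

lemma form_cf (hd : 1 ≤ d) (i : Fin n) (c η : Fin n → ℂ) (s t : A) :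
    form (cf d i c η s t) = fam d i c η s t := form_coeff (fam_homog hd i c η s t)

lemma aeval_DD (v : Mon n d → A)
    (B : Mon n (n * (d - 2)) → (Fin n →₀ ℕ) × Fin n) (μ : Mon n (n * (d - 2))) :
    aeval v (DD B μ) = (mat (form v) B μ (Hess (form v))).det := by
  have := map_DD ((aeval v : MvPolynomial (Mon n d) ℂ →ₐ[ℂ] A) : MvPolynomial (Mon n d) ℂ →+* A)
    B μ
  simpa using this

lemma aeval_cf (φ : A →ₐ[ℂ] B) (i : Fin n) (c η : Fin n → ℂ) (s t : A)
    (P : MvPolynomial (Mon n d) ℂ) :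
    φ (aeval (cf d i c η s t) P) = aeval (cf d i c η (φ s) (φ t)) P := by
  rw [← AlgHom.comp_apply, comp_aeval]
  congr 2
  ext α
  exact map_cf φ i c η s t α

end

/-- The family on a line, expanded. -/
lemma fam_line (i : Fin n) (c η : Fin n → ℂ) (s : ℂ) :
    fam d i c η (Polynomial.C s) Polynomial.X =
      C Polynomial.X * map Polynomial.C (X i ^ d) + map Polynomial.C (base d i c η s) := by
  rw [fam, map_pow, map_X]
  congr 1
  have := map_base (d := d) (Polynomial.CAlgHom (R := ℂ) (A := ℂ)) i c η s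
  exact this.symm

lemma pderiv_line (i l : Fin n) (c η : Fin n → ℂ) (s : ℂ) :
    pderiv l (fam d i c η (Polynomial.C s) Polynomial.X) =
      C Polynomial.X * map Polynomial.C (pderiv l (X i ^ d)) +
        map Polynomial.C (pderiv l (base d i c η s)) := by
  rw [fam_line, map_add, pderiv_map, ← smul_eq_C_mul, Derivation.map_smul, smul_eq_C_mul,
    pderiv_map]

lemma pderiv2_line (i l m : Fin n) (c η : Fin n → ℂ) (s : ℂ) :
    pderiv m (pderiv l (fam d i c η (Polynomial.C s) Polynomial.X)) =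
      C Polynomial.X * map Polynomial.C (pderiv m (pderiv l (X i ^ d))) +
        map Polynomial.C (pderiv m (pderiv l (base d i c η s))) := by
  rw [pderiv_line, map_add, pderiv_map, ← smul_eq_C_mul, Derivation.map_smul, smul_eq_C_mul,
    pderiv_map]

lemma pderiv_X_pow_ne {A : Type*} [CommRing A] {i l : Fin n} (h : l ≠ i) :
    pderiv l (X i ^ d : MvPolynomial (Fin n) A) = 0 := by
  rw [pderiv_pow, pderiv_X_of_ne h.symm, mul_zero]

lemma Dle_pderiv (i l : Fin n) (c η : Fin n → ℂ) (s : ℂ) :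
    Dle 1 (pderiv l (fam d i c η (Polynomial.C s) Polynomial.X)) := by
  rw [pderiv_line]
  exact (Dle.X_mul_map_C _).add ((Dle.map_C _).mono (by omega))

lemma Dle_pderiv_ne (i l : Fin n) (hl : l ≠ i) (c η : Fin n → ℂ) (s : ℂ) :
    Dle 0 (pderiv l (fam d i c η (Polynomial.C s) Polynomial.X)) := by
  rw [pderiv_line, pderiv_X_pow_ne hl, map_zero, mul_zero, zero_add]
  exact Dle.map_C _

lemma Dle_Hess (i : Fin n) (c η : Fin n → ℂ) (s : ℂ) :
    Dle 1 (Hess (fam d i c η (Polynomial.C s) Polynomial.X)) := by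
  rw [Hess, Matrix.det_apply]
  refine Dle.sum _ fun σ _ => ?_
  have h1 : Dle (∑ l : Fin n, if l = i then 1 else 0) (∏ l : Fin n, (Matrix.of fun m l : Fin n =>
      pderiv m (pderiv l (fam d i c η (Polynomial.C s) Polynomial.X))) (σ l) l) := by
    refine Dle.prod _ fun l _ => ?_
    rw [Matrix.of_apply, pderiv2_line]
    split_ifs with h
    · exact (Dle.X_mul_map_C _).add ((Dle.map_C _).mono (by omega))
    · rw [pderiv_X_pow_ne h, map_zero, map_zero, mul_zero, zero_add]
      exact Dle.map_C _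
  rw [Finset.sum_ite_eq', if_pos (Finset.mem_univ _)] at h1
  intro γ
  rcases Int.units_eq_one_or (Equiv.Perm.sign σ) with h | h
  · rw [h, one_smul]; exact h1 γ
  · rw [h, Units.neg_smul, one_smul, coeff_neg, Polynomial.natDegree_neg]; exact h1 γ

/-- The degree of `D` on the line. -/
lemma natDegree_DD_le (hd : 3 ≤ d) (i : Fin n) (c η : Fin n → ℂ) (s : ℂ) :
    (aeval (cf d i c η (Polynomial.C s) Polynomial.X) (DD (sel d i) (muE n d))).natDegree ≤
      (TT n d i).card := by
  rw [aeval_DD, form_cf (by omega), Matrix.det_apply]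
  refine Polynomial.natDegree_sum_le_of_forall_le _ _ fun σ _ => ?_
  have h1 : (∏ β : Mon n (n * (d - 2)), mat (fam d i c η (Polynomial.C s) Polynomial.X)
      (sel d i) (muE n d) (Hess (fam d i c η (Polynomial.C s) Polynomial.X)) (σ β) β).natDegree ≤
      ∑ β : Mon n (n * (d - 2)), if β ∈ TT n d i then 1 else 0 := by
    refine (Polynomial.natDegree_prod_le _ _).trans (Finset.sum_le_sum fun β _ => ?_)
    rw [mat, Matrix.of_apply]
    by_cases hβ : β = muE n d
    · rw [hβ, colp_same, if_pos (muE_mem_TT hd i)]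
      exact Dle_Hess i c η s _
    · rw [colp_ne _ _ _ _ hβ]
      have h2 : monomial (sel d i β).1 (1 : Polynomial ℂ) =
          map Polynomial.C (monomial (sel d i β).1 (1 : ℂ)) := by
        rw [map_monomial, Polynomial.C_1]
      rw [h2]
      split_ifs with h
      · exact ((Dle.map_C _).mul (Dle_pderiv i _ c η s)) _
      · exact ((Dle.map_C _).mul (Dle_pderiv_ne i _ (sel_snd_ne hd h).2 c η s)) _
  rw [Finset.sum_ite_mem, Finset.univ_inter, Finset.sum_const, smul_eq_mul, mul_one] at h1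
  rcases Int.units_eq_one_or (Equiv.Perm.sign σ) with h | h
  · rw [h, one_smul]; exact h1
  · rw [h, Units.neg_smul, one_smul, Polynomial.natDegree_neg]; exact h1

end Pool.Agent.N172.AF
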