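import Pool.Agent.N172.AF.Prime

/-! # The functional with values polynomials in the coefficients of the form -/

set_option autoImplicit false

namespace Pool.Agent.N172.AF

open MvPolynomial Finset
open scoped Matrix Classical

variable {n d : ℕ}

lemma det_mat_linear {k : ℕ} {A : Type*} [CommRing A] (f : MvPolynomial (Fin n) A)
    (B : Mon n k → (Fin n →₀ ℕ) × Fin n) (μ : Mon n k) (h : MvPolynomial (Fin n) A) :
    (mat f B μ h).det = ∑ γ : Mon n k, coeff γ.1 h * (mat f B μ (monomial γ.1 1)).det := by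
  have h1 : vec k h = ∑ γ : Mon n k, coeff γ.1 h • vec k (monomial γ.1 (1 : A)) := by
    ext δ
    rw [Finset.sum_apply, Finset.sum_eq_single δ]
    · simp [vec]
    · intro γ _ hγ
      rw [Pi.smul_apply, vec, coeff_monomial, if_neg, smul_zero]
      intro h2
      exact hγ (Subtype.ext h2)
    · intro h2; exact absurd (Finset.mem_univ _) h2
  rw [det_mat_eq_cramer f B μ 0, h1, map_sum, Finset.sum_apply]
  refine Finset.sum_congr rfl fun γ _ => ?_
  rw [map_smul, Pi.smul_apply, smul_eq_mul, ← det_mat_eq_cramer]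

/-- The polynomial functional. -/
lemma exists_P (hn : 2 ≤ n) (hd : 3 ≤ d) (Δ : MvPolynomial (Mon n d) ℂ) (hirr : Irreducible Δ)
    (hΔ : ∀ v : Mon n d → ℂ, eval v Δ = 0 ↔ ∃ p : Fin n → ℂ, p ≠ 0 ∧
      ∀ l, eval p (pderiv l (form v)) = 0) :
    ∃ P : Mon n (n * (d - 2)) → MvPolynomial (Mon n d) ℂ,
      (∀ (α : Fin n →₀ ℕ) (i : Fin n), α.degree + (d - 1) = n * (d - 2) →
        ∑ γ : Mon n (n * (d - 2)), coeff γ.1 (monomial α 1 * pderiv i (gen n d)) * P γ = 0) ∧
      ∑ γ : Mon n (n * (d - 2)), coeff γ.1 (Hess (gen n d)) * P γ = Δ := by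
  have hdvd : ∀ i : Fin n, Δ ∣ DD (sel d i) (muE n d) := by
    intro i
    refine dvd_of_zero hirr fun v hv => ?_
    obtain ⟨p, hp, hs⟩ := (hΔ v).1 hv
    exact DD_zero_of_sing _ (sel_degree hn hd i) _ v hp hs
  choose E hE using hdvd
  have hunit : ∀ π, (∀ i, π ∣ E i) → IsUnit π := fun π hπ =>
    isUnit_of_dvd (by omega) hd Δ π E (fun v hv => (hΔ v).2 hv) hE hπ
  have hΔ0 : Δ ≠ 0 := hirr.ne_zero
  let i0 : Fin n := ⟨0, by omega⟩
  have hdvd2 : ∀ h, E i0 ∣ AA (sel d i0) (muE n d) h := by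
    intro h
    refine dvd_of_family E hunit _ _ fun j => ?_
    have h1 := gen_cross (by omega) (sel d i0) (sel d j) (sel_degree hn hd i0)
      (sel_degree hn hd j) (muE n d) h
    rw [hE i0, hE j, mul_assoc, ← mul_assoc (AA _ _ _), mul_comm (AA _ _ _) Δ, mul_assoc] at h1
    exact ⟨_, (mul_left_cancel₀ hΔ0 h1).symm⟩
  choose P hP using fun γ : Mon n (n * (d - 2)) => hdvd2 (monomial γ.1 1)
  have hE0 : E i0 ≠ 0 := by
    intro h
    apply DD_diag_ne hd i0 (fun _ => (1 : ℂ)) fun _ => one_ne_zero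
    rw [hE i0, h, mul_zero, map_zero]
  have hlin : ∀ h, AA (sel d i0) (muE n d) h = E i0 *
      ∑ γ : Mon n (n * (d - 2)), coeff γ.1 h * P γ := by
    intro h
    rw [AA, det_mat_linear, Finset.mul_sum]
    refine Finset.sum_congr rfl fun γ _ => ?_
    have := hP γ
    rw [AA] at this
    rw [this]
    ring
  refine ⟨P, fun α i hα => ?_, ?_⟩
  · have h1 := hlin (monomial α 1 * pderiv i (gen n d))
    rw [gen_minor_zero (by omega) _ (sel_degree hn hd i0) _ α hα i] at h1
    exact (mul_eq_zero.1 h1.symm).resolve_left hE0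
  · have h1 := hlin (Hess (gen n d))
    have h2 : AA (sel d i0) (muE n d) (Hess (gen n d)) = DD (sel d i0) (muE n d) := rfl
    rw [h2, hE i0, mul_comm Δ] at h1
    exact (mul_left_cancel₀ hE0 h1).symm

/-- The functional at a form, on power series. -/
noncomputable def LL (P : Mon n (n * (d - 2)) → MvPolynomial (Mon n d) ℂ) (c : Mon n d → ℂ) :
    MvPowerSeries (Fin n) ℂ →ₗ[ℂ] ℂ :=
  ∑ γ : Mon n (n * (d - 2)), eval c (P γ) • MvPowerSeries.coeff γ.1

lemma LL_apply (P : Mon n (n * (d - 2)) → MvPolynomial (Mon n d) ℂ) (c : Mon n d → ℂ)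
    (h : MvPowerSeries (Fin n) ℂ) :
    LL P c h = ∑ γ : Mon n (n * (d - 2)), MvPowerSeries.coeff γ.1 h * eval c (P γ) := by
  rw [LL, LinearMap.sum_apply]
  refine Finset.sum_congr rfl fun γ _ => ?_
  rw [LinearMap.smul_apply, smul_eq_mul, mul_comm]

lemma LL_coe (P : Mon n (n * (d - 2)) → MvPolynomial (Mon n d) ℂ) (c : Mon n d → ℂ)
    (h : MvPolynomial (Fin n) ℂ) :
    LL P c (h : MvPowerSeries (Fin n) ℂ) =
      ∑ γ : Mon n (n * (d - 2)), coeff γ.1 h * eval c (P γ) := by
  rw [LL_apply]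
  simp only [MvPolynomial.coeff_coe]

lemma LL_sub (P : Mon n (n * (d - 2)) → MvPolynomial (Mon n d) ℂ) (c : Mon n d → ℂ)
    (h h' : MvPolynomial (Fin n) ℂ) (a : ℂ) :
    LL P c ((h - C a * h' : MvPolynomial (Fin n) ℂ) : MvPowerSeries (Fin n) ℂ) =
      LL P c (h : MvPowerSeries (Fin n) ℂ) - a * LL P c (h' : MvPowerSeries (Fin n) ℂ) := by
  rw [LL_coe, LL_coe, LL_coe, Finset.mul_sum, ← Finset.sum_sub_distrib]
  refine Finset.sum_congr rfl fun γ _ => ?_
  rw [coeff_sub, coeff_C_mul]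
  ring

/-- The functional kills the Jacobian ideal. -/
lemma LL_mul (P : Mon n (n * (d - 2)) → MvPolynomial (Mon n d) ℂ)
    (h1 : ∀ (α : Fin n →₀ ℕ) (i : Fin n), α.degree + (d - 1) = n * (d - 2) →
        ∑ γ : Mon n (n * (d - 2)), coeff γ.1 (monomial α 1 * pderiv i (gen n d)) * P γ = 0)
    (c : Mon n d → ℂ) (i : Fin n) (q : MvPowerSeries (Fin n) ℂ) :
    LL P c (q * (pderiv i (form c) : MvPolynomial (Fin n) ℂ)) = 0 := by
  set g := pderiv i (form c) with hg
  have hgh : g.IsHomogeneous (d - 1) := (form_homog c).pderiv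
  -- the relevant part of `q`
  by_cases hν : d - 1 ≤ n * (d - 2)
  · have h2 : LL P c (q * (g : MvPowerSeries (Fin n) ℂ)) =
        LL P c (((∑ a : Mon n (n * (d - 2) - (d - 1)),
          monomial a.1 (MvPowerSeries.coeff a.1 q) * g : MvPolynomial (Fin n) ℂ)) :
            MvPowerSeries (Fin n) ℂ) := by
      rw [LL_apply, LL_coe]
      refine Finset.sum_congr rfl fun γ _ => ?_
      congr 1
      rw [← Finset.sum_mul, MvPowerSeries.coeff_mul, coeff_mul]
      refine Finset.sum_congr rfl fun x hx => ?_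
      rw [Finset.HasAntidiagonal.mem_antidiagonal] at hx
      rw [MvPolynomial.coeff_coe]
      by_cases hx2 : x.2.degree = d - 1
      · congr 1
        have hx1 : x.1.degree = n * (d - 2) - (d - 1) := by
          have := congrArg Finsupp.degree hx
          rw [map_add, γ.2, hx2] at this
          omega
        rw [coeff_sum, Finset.sum_eq_single (⟨x.1, hx1⟩ : Mon n (n * (d - 2) - (d - 1)))]
        · simp
        · intro b _ hb
          rw [coeff_monomial, if_neg]
          intro h3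
          exact hb (Subtype.ext h3)
        · intro h3; exact absurd (Finset.mem_univ _) h3
      · rw [hgh.coeff_eq_zero hx2, mul_zero, mul_zero]
    rw [h2, LL_coe]
    have h4 : ∀ γ : Mon n (n * (d - 2)), coeff γ.1 (∑ a : Mon n (n * (d - 2) - (d - 1)),
        monomial a.1 (MvPowerSeries.coeff a.1 q) * g) * eval c (P γ) =
        ∑ a : Mon n (n * (d - 2) - (d - 1)), MvPowerSeries.coeff a.1 q *
          (coeff γ.1 (monomial a.1 1 * g) * eval c (P γ)) := by
      intro γ
      rw [coeff_sum, Finset.sum_mul]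
      refine Finset.sum_congr rfl fun a _ => ?_
      rw [← mul_assoc, ← coeff_C_mul, ← mul_assoc, C_mul_monomial, mul_one]
    rw [Finset.sum_congr rfl fun γ _ => h4 γ, Finset.sum_comm]
    refine Finset.sum_eq_zero fun a _ => ?_
    rw [← Finset.mul_sum]
    have h5 := congrArg (eval c) (h1 a.1 i (by rw [a.2]; omega))
    rw [map_sum, map_zero] at h5
    have h6 : ∀ γ : Mon n (n * (d - 2)), eval c (coeff γ.1 (monomial a.1 1 *
        pderiv i (gen n d)) * P γ) = coeff γ.1 (monomial a.1 1 * g) * eval c (P γ) := by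
      intro γ
      rw [map_mul, ← coeff_map, map_mul, map_monomial, map_one, ← pderiv_map, map_eval_gen]
    rw [Finset.sum_congr rfl fun γ _ => h6 γ] at h5
    rw [h5, mul_zero]
  · rw [LL_apply]
    refine Finset.sum_eq_zero fun γ _ => ?_
    rw [MvPowerSeries.coeff_mul, Finset.sum_eq_zero, zero_mul]
    intro x hx
    rw [Finset.HasAntidiagonal.mem_antidiagonal] at hx
    rw [MvPolynomial.coeff_coe, hgh.coeff_eq_zero, mul_zero]
    intro h3
    have := congrArg Finsupp.degree hx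
    rw [map_add, γ.2, h3] at this
    omega

lemma LL_ideal (P : Mon n (n * (d - 2)) → MvPolynomial (Mon n d) ℂ)
    (h1 : ∀ (α : Fin n →₀ ℕ) (i : Fin n), α.degree + (d - 1) = n * (d - 2) →
        ∑ γ : Mon n (n * (d - 2)), coeff γ.1 (monomial α 1 * pderiv i (gen n d)) * P γ = 0)
    (c : Mon n d → ℂ) (h : MvPowerSeries (Fin n) ℂ)
    (hh : h ∈ Ideal.span (Set.range fun i : Fin n =>
      ((pderiv i (form c) : MvPolynomial (Fin n) ℂ) : MvPowerSeries (Fin n) ℂ))) :
    LL P c h = 0 := by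
  rw [Ideal.span, Submodule.mem_span_range_iff_exists_fun] at hh
  obtain ⟨q, rfl⟩ := hh
  rw [map_sum]
  refine Finset.sum_eq_zero fun i _ => ?_
  rw [smul_eq_mul]
  exact LL_mul P h1 c i (q i)

lemma LL_Hess (P : Mon n (n * (d - 2)) → MvPolynomial (Mon n d) ℂ)
    (Δ : MvPolynomial (Mon n d) ℂ)
    (h2 : ∑ γ : Mon n (n * (d - 2)), coeff γ.1 (Hess (gen n d)) * P γ = Δ) (c : Mon n d → ℂ) :
    LL P c (Hess (form c) : MvPolynomial (Fin n) ℂ) = eval c Δ := by
  rw [LL_coe, ← h2, map_sum]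
  refine Finset.sum_congr rfl fun γ _ => ?_
  rw [map_mul, ← coeff_map, map_Hess, map_eval_gen]

/-- Coefficients after scaling the variables. -/
lemma coeff_scale (zs : Fin n → ℂ) (Q : MvPolynomial (Fin n) ℂ) (γ : Fin n →₀ ℕ) :
    coeff γ (aeval (fun i => C (zs i) * X i : Fin n → MvPolynomial (Fin n) ℂ) Q) =
      coeff γ Q * ∏ i, zs i ^ γ i := by
  induction Q using MvPolynomial.induction_on' with
  | monomial m a =>
    rw [aeval_monomial, Finsupp.prod_fintype _ _ (fun i => pow_zero _), coeff_monomial]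
    have h1 : ∏ i, (C (zs i) * X i : MvPolynomial (Fin n) ℂ) ^ m i =
        monomial m (∏ i, zs i ^ m i) := by
      rw [monomial_eq, Finsupp.prod_fintype _ _ (fun i => pow_zero _), map_prod,
        ← Finset.prod_mul_distrib]
      refine Finset.prod_congr rfl fun i _ => ?_
      rw [mul_pow, C_pow]
    rw [h1, MvPolynomial.algebraMap_eq, C_mul_monomial, coeff_monomial]
    split_ifs with h
    · rw [h]
    · rw [zero_mul]
  | add p q hp hq =>
    rw [map_add, coeff_add, hp, hq, coeff_add, add_mul]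

/-- The values on the powers of linear forms. -/
lemma LL_pow (P : Mon n (n * (d - 2)) → MvPolynomial (Mon n d) ℂ) (c : Mon n d → ℂ)
    (zs : Fin n → ℂ) :
    LL P c (((∑ i, C (zs i) * X i) ^ (n * (d - 2)) : MvPolynomial (Fin n) ℂ) :
      MvPowerSeries (Fin n) ℂ) =
    ∑ γ : Mon n (n * (d - 2)), eval c (C (coeff γ.1 ((∑ i, X i : MvPolynomial (Fin n) ℂ) ^
      (n * (d - 2)))) * P γ) * ∏ i, zs i ^ γ.1 i := by
  rw [LL_coe]
  refine Finset.sum_congr rfl fun γ _ => ?_
  have h1 : ((∑ i, C (zs i) * X i) ^ (n * (d - 2)) : MvPolynomial (Fin n) ℂ) =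
      aeval (fun i => C (zs i) * X i : Fin n → MvPolynomial (Fin n) ℂ)
        ((∑ i, X i : MvPolynomial (Fin n) ℂ) ^ (n * (d - 2))) := by
    rw [map_pow, map_sum]
    simp only [aeval_X]
  rw [h1, coeff_scale, map_mul, eval_C]
  ring

end Pool.Agent.N172.AF
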