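import Pool.Agent.N172.AF.Mat

/-! # The generic determinants, the selections of columns -/

set_option autoImplicit false

namespace Pool.Agent.N172.AF

open MvPolynomial Finset
open scoped Matrix Classical

variable {n d : ℕ}

/-- The generic form. -/
noncomputable def gen (n d : ℕ) : MvPolynomial (Fin n) (MvPolynomial (Mon n d) ℂ) :=
  form fun α => X α

lemma gen_homog : (gen n d).IsHomogeneous d := form_homog _

lemma map_gen {A : Type*} [CommRing A] (φ : MvPolynomial (Mon n d) ℂ →+* A) :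
    map φ (gen n d) = form fun α => φ (X α) := map_form _ _

lemma map_eval_gen (c : Mon n d → ℂ) : map (eval c) (gen n d) = form c := by
  rw [map_gen]; simp

/-- The determinant of the columns and the Hessian. -/
noncomputable def DD (B : Mon n (n * (d - 2)) → (Fin n →₀ ℕ) × Fin n) (μ : Mon n (n * (d - 2))) :
    MvPolynomial (Mon n d) ℂ := (mat (gen n d) B μ (Hess (gen n d))).det

/-- The determinant of the columns and `h`. -/
noncomputable def AA (B : Mon n (n * (d - 2)) → (Fin n →₀ ℕ) × Fin n) (μ : Mon n (n * (d - 2)))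
    (h : MvPolynomial (Fin n) (MvPolynomial (Mon n d) ℂ)) :
    MvPolynomial (Mon n d) ℂ := (mat (gen n d) B μ h).det

lemma map_DD {A : Type*} [CommRing A] (φ : MvPolynomial (Mon n d) ℂ →+* A)
    (B : Mon n (n * (d - 2)) → (Fin n →₀ ℕ) × Fin n) (μ : Mon n (n * (d - 2))) :
    φ (DD B μ) = (mat (form fun α => φ (X α)) B μ (Hess (form fun α => φ (X α)))).det := by
  rw [DD, map_det_mat, map_Hess, map_gen]

lemma eval_DD (c : Mon n d → ℂ)
    (B : Mon n (n * (d - 2)) → (Fin n →₀ ℕ) × Fin n) (μ : Mon n (n * (d - 2))) :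
    eval c (DD B μ) = (mat (form c) B μ (Hess (form c))).det := by
  rw [map_DD]; simp

lemma gen_minor_zero (hd : 2 ≤ d) (B : Mon n (n * (d - 2)) → (Fin n →₀ ℕ) × Fin n)
    (hB : ∀ β, (B β).1.degree + (d - 1) = n * (d - 2)) (μ : Mon n (n * (d - 2)))
    (α : Fin n →₀ ℕ) (hα : α.degree + (d - 1) = n * (d - 2)) (i : Fin n) :
    AA B μ (monomial α 1 * pderiv i (gen n d)) = 0 := by
  apply MvPolynomial.funext
  intro c
  rw [AA, map_det_mat, map_eval_gen, map_mul, map_monomial, map_one, ← pderiv_map, map_eval_gen,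
    map_zero]
  exact minor_zero hd (form_homog c) B hB μ α hα i

lemma gen_cross (hd : 2 ≤ d) (B B' : Mon n (n * (d - 2)) → (Fin n →₀ ℕ) × Fin n)
    (hB : ∀ β, (B β).1.degree + (d - 1) = n * (d - 2))
    (hB' : ∀ β, (B' β).1.degree + (d - 1) = n * (d - 2)) (μ : Mon n (n * (d - 2)))
    (h : MvPolynomial (Fin n) (MvPolynomial (Mon n d) ℂ)) :
    DD B μ * AA B' μ h = AA B μ h * DD B' μ :=
  cross _ B B' μ _ _ fun β => gen_minor_zero hd B' hB' μ _ (hB β) _

lemma DD_zero_of_sing (B : Mon n (n * (d - 2)) → (Fin n →₀ ℕ) × Fin n)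
    (hB : ∀ β, (B β).1.degree + (d - 1) = n * (d - 2)) (μ : Mon n (n * (d - 2)))
    (c : Mon n d → ℂ) {p : Fin n → ℂ} (hp : p ≠ 0)
    (hs : ∀ i, eval p (pderiv i (form c)) = 0) : eval c (DD B μ) = 0 := by
  rw [eval_DD]
  exact det_zero_of_sing (form_homog c) B hB μ hp hs

/-! ### The selections -/

/-- The exponent of the socle. -/
noncomputable def muE (n d : ℕ) : Mon n (n * (d - 2)) :=
  ⟨Finsupp.equivFunOnFinite.symm fun _ => d - 2, by rw [Finsupp.degree_eq_sum]; simp⟩

lemma muE_apply (j : Fin n) : (muE n d).1 j = d - 2 := rfl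

/-- The index of the partial derivative attached to the monomial `β`: one different from `i` if
possible. -/
noncomputable def jj (d : ℕ) (i : Fin n) (β : Fin n →₀ ℕ) : Fin n :=
  if h : ∃ j, j ≠ i ∧ d - 1 ≤ β j then h.choose else i

/-- The selection attached to `i`. -/
noncomputable def sel (d : ℕ) (i : Fin n) (β : Mon n (n * (d - 2))) : (Fin n →₀ ℕ) × Fin n :=
  if β = muE n d then (Finsupp.single i (n * (d - 2) - (d - 1)), i)
  else (β.1 - Finsupp.single (jj d i β.1) (d - 1), jj d i β.1)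

lemma jj_ne {i : Fin n} {β : Fin n →₀ ℕ} (h : ∃ j, j ≠ i ∧ d - 1 ≤ β j) :
    jj d i β ≠ i ∧ d - 1 ≤ β (jj d i β) := by
  rw [jj, dif_pos h]; exact h.choose_spec

lemma jj_eq {i : Fin n} {β : Fin n →₀ ℕ} (h : ∀ j, j ≠ i → β j < d - 1) : jj d i β = i := by
  rw [jj, dif_neg]
  rintro ⟨j, h1, h2⟩
  exact absurd (h j h1) (by omega)

lemma le_jj (hd : 3 ≤ d) (i : Fin n) {β : Mon n (n * (d - 2))} (hβ : β ≠ muE n d) :
    d - 1 ≤ β.1 (jj d i β.1) := by
  by_cases h : ∃ j, j ≠ i ∧ d - 1 ≤ β.1 j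
  · exact (jj_ne h).2
  · push Not at h
    rw [jj_eq h]
    by_contra h2
    push Not at h2
    apply hβ
    have h3 : ∀ j, β.1 j ≤ d - 2 := by
      intro j
      by_cases hj : j = i
      · subst hj; omega
      · have := h j hj; omega
    have h4 : ∑ j, β.1 j = ∑ _j : Fin n, (d - 2) := by
      rw [← Finsupp.degree_eq_sum, β.2]; simp
    have h5 := (Finset.sum_eq_sum_iff_of_le fun j _ => h3 j).1 h4
    refine Subtype.ext (Finsupp.ext fun j => ?_)
    rw [muE_apply]
    exact h5 j (Finset.mem_univ _)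

lemma sel_degree (hn : 2 ≤ n) (hd : 3 ≤ d) (i : Fin n) (β : Mon n (n * (d - 2))) :
    (sel d i β).1.degree + (d - 1) = n * (d - 2) := by
  have hle : d - 1 ≤ n * (d - 2) := by
    obtain ⟨e, rfl⟩ := Nat.exists_eq_add_of_le hd
    obtain ⟨m, rfl⟩ := Nat.exists_eq_add_of_le hn
    have h1 : 3 + e - 1 = e + 2 := by omega
    have h2 : 3 + e - 2 = e + 1 := by omega
    rw [h1, h2]
    nlinarith [Nat.zero_le (m * (e + 1))]
  rw [sel]
  split_ifs with h
  · rw [Finsupp.degree_single]; omega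
  · have h3 : Finsupp.single (jj d i β.1) (d - 1) ≤ β.1 := by
      rw [Finsupp.single_le_iff]; exact le_jj hd i h
    have h4 := congrArg Finsupp.degree (tsub_add_cancel_of_le h3)
    rw [map_add, β.2, Finsupp.degree_single] at h4
    exact h4

/-- The monomials all of whose exponents but the `i`-th are small. -/
noncomputable def TT (n d : ℕ) (i : Fin n) : Finset (Mon n (n * (d - 2))) :=
  Finset.univ.filter fun β => ∀ j, j ≠ i → β.1 j < d - 1

lemma mem_TT {i : Fin n} {β : Mon n (n * (d - 2))} :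
    β ∈ TT n d i ↔ ∀ j, j ≠ i → β.1 j < d - 1 := by simp [TT]

lemma muE_mem_TT (hd : 3 ≤ d) (i : Fin n) : muE n d ∈ TT n d i := by
  rw [mem_TT]
  intro j _
  rw [muE_apply]
  omega

lemma sel_snd_ne {i : Fin n} {β : Mon n (n * (d - 2))} (hd : 3 ≤ d) (hβ : β ∉ TT n d i) :
    β ≠ muE n d ∧ (sel d i β).2 ≠ i := by
  have h1 : β ≠ muE n d := by
    rintro rfl
    exact hβ (muE_mem_TT hd i)
  refine ⟨h1, ?_⟩
  rw [sel, if_neg h1]
  apply (jj_ne _).1
  rw [mem_TT] at hβ
  push Not at hβ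
  exact hβ

end Pool.Agent.N172.AF
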