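import Pool.Agent.N172.AF.Diag

/-! # The singular members of the family -/

set_option autoImplicit false

namespace Pool.Agent.N172.AF

open MvPolynomial Finset
open scoped Matrix Classical

variable {n d : ℕ}

/-- The singular point. -/
noncomputable def pt (i : Fin n) (η : Fin n → ℂ) (s ξ : ℂ) (e : Fin n → ℕ) : Fin n → ℂ :=
  fun j => if j = i then 1 else s * η j * ξ ^ e j

/-- The parameter of the singular member. -/
noncomputable def tt (d : ℕ) (i : Fin n) (c η : Fin n → ℂ) (s ξ : ℂ) (e : Fin n → ℕ) : ℂ :=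
  ((d - 1 : ℕ) : ℂ) * s ^ d * ∑ j ∈ univ.erase i, c j * η j ^ d * ξ ^ e j

lemma eval_pderiv_pow (p : Fin n → ℂ) (l j : Fin n) (k : ℕ) :
    eval p (pderiv l (X j ^ k : MvPolynomial (Fin n) ℂ)) = if l = j then k * p j ^ (k - 1) else 0 := by
  rw [pderiv_pow]
  by_cases h : l = j
  · subst h
    rw [if_pos rfl, pderiv_X_self]
    simp
  · rw [if_neg h, pderiv_X_of_ne (Ne.symm h), mul_zero, map_zero]

lemma eval_pderiv_fam (i : Fin n) (c η : Fin n → ℂ) (s t : ℂ) (p : Fin n → ℂ) (l : Fin n) :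
    eval p (pderiv l (fam d i c η s t)) = t * eval p (pderiv l (X i ^ d : MvPolynomial (Fin n) ℂ)) +
      ∑ j ∈ univ.erase i, c j * (eval p (pderiv l (X j ^ d : MvPolynomial (Fin n) ℂ)) -
        d * (s * η j) ^ (d - 1) * ((if l = j then 1 else 0) * p i ^ (d - 1) +
          p j * eval p (pderiv l (X i ^ (d - 1) : MvPolynomial (Fin n) ℂ)))) := by
  rw [fam, map_add, map_add, ← smul_eq_C_mul, Derivation.map_smul, smul_eq_C_mul, map_mul, eval_C,
    base, map_sum, map_sum]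
  congr 1
  refine Finset.sum_congr rfl fun j _ => ?_
  rw [← smul_eq_C_mul, Derivation.map_smul, smul_eq_C_mul, map_mul, eval_C, map_sub, map_sub,
    ← smul_eq_C_mul (a := (d : ℂ) * _), Derivation.map_smul, smul_eq_C_mul, map_mul, eval_C,
    pderiv_mul, map_add, map_mul, map_mul, (eval p).map_pow (X i) (d - 1), eval_X, eval_X]
  have h8 : eval p (pderiv l (X j)) = if l = j then 1 else 0 := by
    by_cases h : l = j
    · subst h; rw [pderiv_X_self, if_pos rfl, map_one]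
    · rw [pderiv_X_of_ne (Ne.symm h), if_neg h, map_zero]
  rw [h8]
  simp only [Algebra.algebraMap_self, RingHom.id_apply]

lemma sing_fam (hd : 3 ≤ d) (i : Fin n) (c η : Fin n → ℂ) (s ξ : ℂ) (hξ : ξ ^ (d - 1) = 1)
    (e : Fin n → ℕ) (l : Fin n) :
    eval (pt i η s ξ e) (pderiv l (fam d i c η s (tt d i c η s ξ e))) = 0 := by
  rw [eval_pderiv_fam]
  have hpi : pt i η s ξ e i = 1 := by simp [pt]
  by_cases h : l = i
  · subst h
    rw [eval_pderiv_pow, if_pos rfl, hpi, one_pow, mul_one, eval_pderiv_pow, if_pos rfl, hpi,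
      one_pow, mul_one, tt, Finset.mul_sum, Finset.sum_mul, ← Finset.sum_add_distrib]
    refine Finset.sum_eq_zero fun j hj => ?_
    have hj' := Finset.ne_of_mem_erase hj
    rw [eval_pderiv_pow, if_neg hj'.symm, if_neg hj'.symm, pt, if_neg hj']
    obtain ⟨m, rfl⟩ := Nat.exists_eq_add_of_le hd
    have h1 : 3 + m - 1 = m + 2 := by omega
    rw [h1]
    push_cast
    ring
  · rw [eval_pderiv_pow, if_neg h, mul_zero, zero_add,
      Finset.sum_eq_single_of_mem l (Finset.mem_erase.2 ⟨h, Finset.mem_univ _⟩)]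
    · rw [eval_pderiv_pow, if_pos rfl, if_pos rfl, hpi, one_pow, mul_one, eval_pderiv_pow,
        if_neg h, mul_zero, add_zero, pt, if_neg h, mul_pow (s * η l), ← pow_mul, mul_comm (e l),
        pow_mul, hξ, one_pow, mul_one, mul_one, sub_self, mul_zero]
    · intro j _ hj
      rw [eval_pderiv_pow, if_neg hj.symm, if_neg hj.symm, eval_pderiv_pow, if_neg h]
      ring

lemma pt_ne (i : Fin n) (η : Fin n → ℂ) (s ξ : ℂ) (e : Fin n → ℕ) : pt i η s ξ e ≠ 0 := by
  intro h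
  have := congrFun h i
  simp [pt] at this

/-- Two monomials in `TT` differ at a coordinate different from `i`. -/
lemma TT_differ {i : Fin n} {β β' : Mon n (n * (d - 2))} (hne : β ≠ β') :
    ∃ j, j ≠ i ∧ β.1 j ≠ β'.1 j := by
  by_contra hcon
  push Not at hcon
  apply hne
  have h1 : ∑ j, β.1 j = ∑ j, β'.1 j := by
    rw [← Finsupp.degree_eq_sum, ← Finsupp.degree_eq_sum, β.2, β'.2]
  have h2 := Finset.add_sum_erase _ (fun j => β.1 j) (Finset.mem_univ i)
  have h3 := Finset.add_sum_erase _ (fun j => β'.1 j) (Finset.mem_univ i)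
  have h4 : ∑ j ∈ univ.erase i, β.1 j = ∑ j ∈ univ.erase i, β'.1 j :=
    Finset.sum_congr rfl fun j hj => hcon j (Finset.ne_of_mem_erase hj)
  refine Subtype.ext (Finsupp.ext fun j => ?_)
  by_cases hj : j = i
  · subst hj; omega
  · exact hcon j hj

/-- Generic values. -/
lemma exists_generic (i : Fin n) (ξ : ℂ) (hξ : IsPrimitiveRoot ξ (d - 1)) :
    ∃ a : Fin n → ℂ, ∀ β ∈ TT n d i, ∀ β' ∈ TT n d i, β ≠ β' →
      ∑ j ∈ univ.erase i, a j * ξ ^ β.1 j ≠ ∑ j ∈ univ.erase i, a j * ξ ^ β'.1 j := by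
  have h1 : (∏ β ∈ TT n d i, ∏ β' ∈ TT n d i, if β = β' then 1 else
      ∑ j ∈ univ.erase i, C (ξ ^ β.1 j - ξ ^ β'.1 j) * (X j : MvPolynomial (Fin n) ℂ)) ≠ 0 := by
    rw [Finset.prod_ne_zero_iff]
    intro β hβ
    rw [Finset.prod_ne_zero_iff]
    intro β' hβ'
    split_ifs with h
    · exact one_ne_zero
    · obtain ⟨j, hj, hjj⟩ := TT_differ (i := i) h
      intro h0
      have h2 := congrArg (coeff (Finsupp.single j 1)) h0
      rw [coeff_sum, coeff_zero, Finset.sum_eq_single_of_mem j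
        (Finset.mem_erase.2 ⟨hj, Finset.mem_univ _⟩), coeff_C_mul, coeff_X, if_pos rfl, mul_one] at h2
      · apply hjj
        exact hξ.pow_inj (mem_TT.1 hβ j hj) (mem_TT.1 hβ' j hj) (sub_eq_zero.1 h2)
      · intro l _ hl
        rw [coeff_C_mul, coeff_X, if_neg, mul_zero]
        intro h3
        exact hl ((Finsupp.single_left_injective one_ne_zero) h3)
  obtain ⟨a, ha⟩ : ∃ a : Fin n → ℂ, eval a (∏ β ∈ TT n d i, ∏ β' ∈ TT n d i, if β = β' then 1 else
      ∑ j ∈ univ.erase i, C (ξ ^ β.1 j - ξ ^ β'.1 j) * (X j : MvPolynomial (Fin n) ℂ)) ≠ 0 := by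
    by_contra hcon
    push Not at hcon
    exact h1 (MvPolynomial.funext fun a => by rw [hcon a, map_zero])
  refine ⟨a, fun β hβ β' hβ' hne h => ?_⟩
  rw [map_prod, Finset.prod_ne_zero_iff] at ha
  have h2 := ha β hβ
  rw [map_prod, Finset.prod_ne_zero_iff] at h2
  have h3 := h2 β' hβ'
  rw [if_neg hne, map_sum] at h3
  apply h3
  rw [← sub_eq_zero, ← Finset.sum_sub_distrib] at h
  rw [← h]
  refine Finset.sum_congr rfl fun j _ => ?_
  rw [map_mul, eval_X, eval_C, sub_mul, mul_comm (ξ ^ β.1 j), mul_comm (ξ ^ β'.1 j)]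

/-- The parameters of the line can be chosen so that there are many singular members. -/
lemma exists_eta (hd : 3 ≤ d) (i : Fin n) (c : Fin n → ℂ) (hc : ∀ j, j ≠ i → c j ≠ 0) :
    ∃ η : Fin n → ℂ, ∃ ξ : ℂ, ξ ^ (d - 1) = 1 ∧ ∀ s : ℂ, s ≠ 0 →
      Set.InjOn (fun β : Mon n (n * (d - 2)) => tt d i c η s ξ β.1) (TT n d i) := by
  obtain ⟨ξ, hξ⟩ : ∃ ξ : ℂ, IsPrimitiveRoot ξ (d - 1) :=
    ⟨_, Complex.isPrimitiveRoot_exp (d - 1) (by omega)⟩
  obtain ⟨a, ha⟩ := exists_generic (d := d) i ξ hξ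
  have h1 : ∀ j, ∃ η : ℂ, j ≠ i → c j * η ^ d = a j := by
    intro j
    obtain ⟨η, hη⟩ := IsAlgClosed.exists_pow_nat_eq (a j / c j) (by omega : 0 < d)
    refine ⟨η, fun hj => ?_⟩
    rw [hη, mul_div_cancel₀ _ (hc j hj)]
  choose η hη using h1
  refine ⟨η, ξ, hξ.pow_eq_one, fun s hs β hβ β' hβ' h => ?_⟩
  by_contra hne
  apply ha β hβ β' hβ' hne
  simp only [tt] at h
  have h2 : (((d - 1 : ℕ) : ℂ) * s ^ d) ≠ 0 :=
    mul_ne_zero (by rw [Nat.cast_ne_zero]; omega) (pow_ne_zero _ hs)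
  have h3 := mul_left_cancel₀ h2 h
  have h4 : ∀ γ : Mon n (n * (d - 2)), ∑ j ∈ univ.erase i, c j * η j ^ d * ξ ^ γ.1 j =
      ∑ j ∈ univ.erase i, a j * ξ ^ γ.1 j := fun γ =>
    Finset.sum_congr rfl fun j hj => by rw [hη j (Finset.ne_of_mem_erase hj)]
  rw [h4, h4] at h3
  exact h3

/-- A factor of `E` is constant on a general line of the family. -/
lemma const_on_line (hd : 3 ≤ d) (i : Fin n) (c η : Fin n → ℂ) (ξ : ℂ) (hξ : ξ ^ (d - 1) = 1)
    (s : ℂ) (hinj : Set.InjOn (fun β : Mon n (n * (d - 2)) => tt d i c η s ξ β.1) (TT n d i))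
    (Δ E π : MvPolynomial (Mon n d) ℂ) (hΔ : ∀ v : Mon n d → ℂ, (∃ p : Fin n → ℂ, p ≠ 0 ∧
      ∀ l, eval p (pderiv l (form v)) = 0) → eval v Δ = 0)
    (hE : DD (sel d i) (muE n d) = Δ * E) (hπ : π ∣ E)
    (h0 : aeval (cf d i c η (Polynomial.C s) Polynomial.X) (DD (sel d i) (muE n d)) ≠ 0) (t : ℂ) :
    eval (cf d i c η s t) π = eval (cf d i c η s 0) π := by
  set ψ : MvPolynomial (Mon n d) ℂ →ₐ[ℂ] Polynomial ℂ :=
    aeval (cf d i c η (Polynomial.C s) Polynomial.X) with hψ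
  have hev : ∀ (P : MvPolynomial (Mon n d) ℂ) (t : ℂ),
      (ψ P).eval t = eval (cf d i c η s t) P := by
    intro P t
    have := aeval_cf (Polynomial.aeval t : Polynomial ℂ →ₐ[ℂ] ℂ) i c η (Polynomial.C s)
      Polynomial.X P
    rw [Polynomial.aeval_C, Polynomial.aeval_X, Polynomial.coe_aeval_eq_eval] at this
    rw [hψ, this, aeval_eq_eval]
    rfl
  obtain ⟨E', rfl⟩ := hπ
  have hdeg := natDegree_DD_le hd i c η s
  rw [← hψ] at hdeg
  rw [hE, map_mul, map_mul] at hdeg h0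
  have hΔ0 : ψ Δ ≠ 0 := left_ne_zero_of_mul h0
  have hπE : ψ π * ψ E' ≠ 0 := right_ne_zero_of_mul h0
  have hπ0 : ψ π ≠ 0 := left_ne_zero_of_mul hπE
  have hE0 : ψ E' ≠ 0 := right_ne_zero_of_mul hπE
  rw [Polynomial.natDegree_mul hΔ0 hπE, Polynomial.natDegree_mul hπ0 hE0] at hdeg
  have hroots : (TT n d i).card ≤ (ψ Δ).natDegree := by
    rw [← Finset.card_image_of_injOn hinj]
    refine Polynomial.card_le_degree_of_subset_roots fun t ht => ?_
    rw [Finset.mem_val, Finset.mem_image] at ht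
    obtain ⟨β, _, rfl⟩ := ht
    rw [Polynomial.mem_roots hΔ0, Polynomial.IsRoot, hev]
    apply hΔ
    refine ⟨pt i η s ξ β.1, pt_ne _ _ _ _ _, fun l => ?_⟩
    rw [form_cf (by omega)]
    exact sing_fam hd i c η s ξ hξ β.1 l
  have hdeg2 : (ψ π).natDegree = 0 := by omega
  rw [Polynomial.natDegree_eq_zero] at hdeg2
  obtain ⟨x, hx⟩ := hdeg2
  rw [← hev, ← hev, ← hx, Polynomial.eval_C, Polynomial.eval_C]

/-- A common factor does not change along diagonal forms. -/
lemma const_diag (hd : 3 ≤ d) (i : Fin n) (c : Fin n → ℂ) (hc : ∀ j, j ≠ i → c j ≠ 0)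
    (Δ E π : MvPolynomial (Mon n d) ℂ) (hΔ : ∀ v : Mon n d → ℂ, (∃ p : Fin n → ℂ, p ≠ 0 ∧
      ∀ l, eval p (pderiv l (form v)) = 0) → eval v Δ = 0)
    (hE : DD (sel d i) (muE n d) = Δ * E) (hπ : π ∣ E) (t : ℂ) :
    eval (cd d (Function.update c i t)) π = eval (cd d (Function.update c i 0)) π := by
  obtain ⟨η, ξ, hξ, hinj⟩ := exists_eta hd i c hc
  -- polynomials in `s`
  have hev : ∀ (P : MvPolynomial (Mon n d) ℂ) (s t : ℂ),
      (aeval (cf d i c η (Polynomial.X : Polynomial ℂ) (Polynomial.C t)) P : Polynomial ℂ).eval s =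
      eval (cf d i c η s t) P := by
    intro P s t
    have := aeval_cf (Polynomial.aeval s : Polynomial ℂ →ₐ[ℂ] ℂ) i c η Polynomial.X
      (Polynomial.C t) P
    rw [Polynomial.aeval_C, Polynomial.aeval_X, Polynomial.coe_aeval_eq_eval] at this
    rw [this, aeval_eq_eval]
    rfl
  have hQ : ((aeval (cf d i c η (Polynomial.X : Polynomial ℂ) (Polynomial.C t)) π : Polynomial ℂ) -
      aeval (cf d i c η (Polynomial.X : Polynomial ℂ) (Polynomial.C 0)) π) * (Polynomial.X *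
      aeval (cf d i c η (Polynomial.X : Polynomial ℂ) (Polynomial.C 1))
        (DD (sel d i) (muE n d))) = 0 := by
    apply Polynomial.funext
    intro s
    rw [Polynomial.eval_mul, Polynomial.eval_sub, Polynomial.eval_mul, Polynomial.eval_X, hev, hev,
      hev, Polynomial.eval_zero]
    by_cases hs : s = 0
    · rw [hs, zero_mul, mul_zero]
    by_cases h1 : eval (cf d i c η s 1) (DD (sel d i) (muE n d)) = 0
    · rw [h1, mul_zero, mul_zero]
    · rw [const_on_line hd i c η ξ hξ s (hinj s hs) Δ E π hΔ hE hπ _ t, sub_self, zero_mul]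
      intro h2
      apply h1
      have := aeval_cf (Polynomial.aeval 1 : Polynomial ℂ →ₐ[ℂ] ℂ) i c η (Polynomial.C s)
        Polynomial.X (DD (sel d i) (muE n d))
      rw [Polynomial.aeval_C, Polynomial.aeval_X, h2, map_zero, aeval_eq_eval] at this
      exact this.symm
  have h3 : Polynomial.X * aeval (cf d i c η (Polynomial.X : Polynomial ℂ) (Polynomial.C 1))
      (DD (sel d i) (muE n d)) ≠ 0 := by
    refine mul_ne_zero Polynomial.X_ne_zero fun h4 => ?_
    have h5 := hev (DD (sel d i) (muE n d)) 0 1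
    rw [h4, Polynomial.eval_zero, cf_zero hd] at h5
    refine DD_diag_ne hd i (Function.update c i 1) (fun j => ?_) h5.symm
    by_cases hj : j = i
    · subst hj; rw [Function.update_self]; exact one_ne_zero
    · rw [Function.update_of_ne hj]; exact hc j hj
  have h6 := sub_eq_zero.1 ((mul_eq_zero.1 hQ).resolve_right h3)
  have h7 := congrArg (Polynomial.eval 0) h6
  rw [hev, hev, cf_zero hd, cf_zero hd] at h7
  exact h7

end Pool.Agent.N172.AF
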