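import Pool.Agent.N172.AF.Rank

/-! # The determinants `D` and `A` -/

set_option autoImplicit false

namespace Pool.Agent.N172.AF

open MvPolynomial Finset
open scoped Matrix

section gen

variable {n k : ℕ} {A : Type*} [CommRing A]

/-- The columns: the polynomial `h` in the place `μ`, and `z^α ∂_i f` in the others. -/
noncomputable def colp (f : MvPolynomial (Fin n) A) (B : Mon n k → (Fin n →₀ ℕ) × Fin n)
    (μ : Mon n k) (h : MvPolynomial (Fin n) A) (β : Mon n k) : MvPolynomial (Fin n) A :=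
  open Classical in if β = μ then h else monomial (B β).1 1 * pderiv (B β).2 f

/-- The matrix with these columns. -/
noncomputable def mat (f : MvPolynomial (Fin n) A) (B : Mon n k → (Fin n →₀ ℕ) × Fin n)
    (μ : Mon n k) (h : MvPolynomial (Fin n) A) : Matrix (Mon n k) (Mon n k) A :=
  Matrix.of fun γ β => coeff γ.1 (colp f B μ h β)

lemma colp_same (f : MvPolynomial (Fin n) A) (B : Mon n k → (Fin n →₀ ℕ) × Fin n)
    (μ : Mon n k) (h : MvPolynomial (Fin n) A) : colp f B μ h μ = h := by
  simp [colp]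

lemma colp_ne (f : MvPolynomial (Fin n) A) (B : Mon n k → (Fin n →₀ ℕ) × Fin n)
    (μ : Mon n k) (h : MvPolynomial (Fin n) A) {β : Mon n k} (hβ : β ≠ μ) :
    colp f B μ h β = monomial (B β).1 1 * pderiv (B β).2 f := by
  simp [colp, hβ]

lemma map_colp {C : Type*} [CommRing C] (φ : A →+* C) (f : MvPolynomial (Fin n) A)
    (B : Mon n k → (Fin n →₀ ℕ) × Fin n) (μ : Mon n k) (h : MvPolynomial (Fin n) A)
    (β : Mon n k) : map φ (colp f B μ h β) = colp (map φ f) B μ (map φ h) β := by
  by_cases hβ : β = μ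
  · subst hβ; rw [colp_same, colp_same]
  · rw [colp_ne _ _ _ _ hβ, colp_ne _ _ _ _ hβ, map_mul, map_monomial, map_one, pderiv_map]

lemma map_det_mat [DecidableEq (Mon n k)] {C : Type*} [CommRing C] (φ : A →+* C)
    (f : MvPolynomial (Fin n) A)
    (B : Mon n k → (Fin n →₀ ℕ) × Fin n) (μ : Mon n k) (h : MvPolynomial (Fin n) A) :
    φ (mat f B μ h).det = (mat (map φ f) B μ (map φ h)).det := by
  rw [RingHom.map_det]
  congr 1
  ext1 γ β
  rw [RingHom.mapMatrix_apply, Matrix.map_apply, mat, mat, Matrix.of_apply, Matrix.of_apply,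
    ← map_colp, coeff_map]

/-- The coefficient vector. -/
noncomputable def vec (k : ℕ) (h : MvPolynomial (Fin n) A) : Mon n k → A := fun γ => coeff γ.1 h

lemma mat_eq_updateCol [DecidableEq (Mon n k)] (f : MvPolynomial (Fin n) A)
    (B : Mon n k → (Fin n →₀ ℕ) × Fin n) (μ : Mon n k) (h h' : MvPolynomial (Fin n) A) :
    mat f B μ h' = (mat f B μ h).updateCol μ (vec k h') := by
  ext γ β
  by_cases hβ : β = μ
  · subst hβ
    rw [Matrix.updateCol_self, mat, Matrix.of_apply, colp_same, vec]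
  · rw [Matrix.updateCol_ne hβ, mat, mat, Matrix.of_apply, Matrix.of_apply, colp_ne _ _ _ _ hβ,
      colp_ne _ _ _ _ hβ]

lemma det_mat_eq_cramer [DecidableEq (Mon n k)] (f : MvPolynomial (Fin n) A)
    (B : Mon n k → (Fin n →₀ ℕ) × Fin n) (μ : Mon n k) (h h' : MvPolynomial (Fin n) A) :
    (mat f B μ h').det = Matrix.cramer (mat f B μ h) (vec k h') μ := by
  rw [Matrix.cramer_apply, ← mat_eq_updateCol]

/-- Cramer's rule. -/
lemma cross [DecidableEq (Mon n k)] (f : MvPolynomial (Fin n) A)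
    (B B' : Mon n k → (Fin n →₀ ℕ) × Fin n) (μ : Mon n k) (u h : MvPolynomial (Fin n) A)
    (h0 : ∀ β, (mat f B' μ (monomial (B β).1 1 * pderiv (B β).2 f)).det = 0) :
    (mat f B μ u).det * (mat f B' μ h).det = (mat f B μ h).det * (mat f B' μ u).det := by
  have h1 := Matrix.mulVec_cramer (mat f B μ u) (vec k h)
  have h2 : mat f B μ u *ᵥ Matrix.cramer (mat f B μ u) (vec k h) =
      ∑ β, Matrix.cramer (mat f B μ u) (vec k h) β • vec k (colp f B μ u β) := by
    ext γ
    rw [Matrix.mulVec, dotProduct, Finset.sum_apply]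
    refine Finset.sum_congr rfl fun β _ => ?_
    rw [Pi.smul_apply, smul_eq_mul, mul_comm]
    rfl
  rw [h2] at h1
  have h3 := congrArg (fun x => Matrix.cramer (mat f B' μ u) x μ) h1
  simp only [map_sum, map_smul, Finset.sum_apply, Pi.smul_apply, smul_eq_mul] at h3
  rw [Finset.sum_eq_single μ] at h3
  · rw [colp_same, ← det_mat_eq_cramer, ← det_mat_eq_cramer, ← det_mat_eq_cramer] at h3
    exact h3.symm
  · intro β _ hβ
    rw [colp_ne _ _ _ _ hβ, ← det_mat_eq_cramer, h0 β, mul_zero]
  · intro h; exact absurd (Finset.mem_univ _) h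

end gen

section field

variable {n d : ℕ}

lemma det_inst {ι R : Type*} [Fintype ι] [CommRing R] (i1 i2 : DecidableEq ι)
    (M : Matrix ι ι R) : @Matrix.det ι i1 _ R _ M = @Matrix.det ι i2 _ R _ M := by
  have h : i1 = i2 := Subsingleton.elim _ _
  rw [h]

/-- All maximal minors of the matrix of the multiples of the partial derivatives vanish. -/
lemma minor_zero {K : Type*} [Field K] (hd : 2 ≤ d) {f : MvPolynomial (Fin n) K}
    (hf : f.IsHomogeneous d)
    [inst : DecidableEq (Mon n (n * (d - 2)))] (B : Mon n (n * (d - 2)) → (Fin n →₀ ℕ) × Fin n)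
    (hB : ∀ β, (B β).1.degree + (d - 1) = n * (d - 2)) (μ : Mon n (n * (d - 2)))
    (α : Fin n →₀ ℕ) (hα : α.degree + (d - 1) = n * (d - 2)) (i : Fin n) :
    (mat f B μ (monomial α 1 * pderiv i f)).det = 0 := by
  have h := rank_lemma (K := K) (δ := d - 1) (ν := n * (d - 2)) (by omega)
    (by rw [show d - 1 - 1 = d - 2 by omega]) (fun i => pderiv i f) (fun i => hf.pderiv)
    (Function.update B μ (α, i)) (fun β => by
      by_cases hβ : β = μ
      · subst hβ; rw [Function.update_self]; exact hα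
      · rw [Function.update_of_ne hβ]; exact hB β)
  refine Eq.trans ?_ ((det_inst inst _ _).trans h)
  refine congrArg Matrix.det ?_
  ext1 γ β
  rw [mat, Matrix.of_apply, Matrix.of_apply]
  by_cases hβ : β = μ
  · subst hβ; rw [Function.update_self, colp_same]
  · rw [Function.update_of_ne hβ, colp_ne _ _ _ _ hβ]

lemma eval_Hess_zero {K : Type*} [Field K] {f : MvPolynomial (Fin n) K}
    (hf : f.IsHomogeneous d) {p : Fin n → K} (hp : p ≠ 0) (hs : ∀ i, eval p (pderiv i f) = 0) :
    eval p (Hess f) = 0 := by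
  classical
  rw [Hess, RingHom.map_det, ← Matrix.exists_vecMul_eq_zero_iff]
  refine ⟨p, hp, ?_⟩
  ext1 j
  have h1 := (hf.pderiv (i := j)).sum_X_mul_pderiv
  have h2 := congrArg (eval p) h1
  rw [map_sum, map_nsmul, hs j, smul_zero] at h2
  simp only [Matrix.vecMul, dotProduct, Pi.zero_apply]
  rw [← h2]
  refine Finset.sum_congr rfl fun i _ => ?_
  rw [RingHom.mapMatrix_apply, Matrix.map_apply, Matrix.of_apply, map_mul, eval_X]

lemma eval_eq_sum {K : Type*} [Field K] {k : ℕ} (p : Fin n → K) {h : MvPolynomial (Fin n) K}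
    (hh : h.IsHomogeneous k) :
    ∑ γ : Mon n k, eval p (monomial γ.1 1) * coeff γ.1 h = eval p h := by
  conv_rhs => rw [eq_sum_mon hh]
  rw [map_sum]
  refine Finset.sum_congr rfl fun γ _ => ?_
  rw [mul_comm, ← smul_eval]
  congr 1
  rw [smul_monomial, smul_eq_mul, mul_one]

/-- A vanishing point of the gradient kills `D`. -/
lemma det_zero_of_sing {K : Type*} [Field K] {f : MvPolynomial (Fin n) K}
    (hf : f.IsHomogeneous d)
    [DecidableEq (Mon n (n * (d - 2)))] (B : Mon n (n * (d - 2)) → (Fin n →₀ ℕ) × Fin n)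
    (hB : ∀ β, (B β).1.degree + (d - 1) = n * (d - 2)) (μ : Mon n (n * (d - 2)))
    {p : Fin n → K} (hp : p ≠ 0) (hs : ∀ i, eval p (pderiv i f) = 0) :
    (mat f B μ (Hess f)).det = 0 := by
  rw [← Matrix.exists_vecMul_eq_zero_iff]
  refine ⟨fun γ => eval p (monomial γ.1 1), ?_, ?_⟩
  · intro h0
    obtain ⟨i, hi⟩ := Function.ne_iff.1 hp
    have h1 := congrFun h0 ⟨Finsupp.single i (n * (d - 2)), by rw [Finsupp.degree_single]⟩
    simp only [Pi.zero_apply] at h1
    rw [← X_pow_eq_monomial, map_pow, eval_X] at h1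
    exact (pow_ne_zero _ hi) h1
  · ext1 β
    have h5 : (colp f B μ (Hess f) β).IsHomogeneous (n * (d - 2)) ∧
        eval p (colp f B μ (Hess f) β) = 0 := by
      by_cases hβ : β = μ
      · rw [hβ, colp_same]
        exact ⟨Hess_homog hf, eval_Hess_zero hf hp hs⟩
      · rw [colp_ne _ _ _ _ hβ]
        refine ⟨?_, by rw [map_mul, hs, mul_zero]⟩
        have := (isHomogeneous_monomial (1 : K) (rfl : (B β).1.degree = (B β).1.degree)).mul
          (hf.pderiv (i := (B β).2))
        rwa [hB β] at this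
    have h6 := eval_eq_sum p h5.1
    rw [h5.2] at h6
    exact h6

end field

end Pool.Agent.N172.AF
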