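import Pool.Agent.N172.AF.Line

/-! # The cofactors have no common factor -/

set_option autoImplicit false

namespace Pool.Agent.N172.AF

open MvPolynomial Finset
open scoped Matrix Classical

variable {n d : ℕ}

lemma cd_smul (l : ℂ) (c : Fin n → ℂ) : cd d (fun j => l * c j) = l • cd d c := by
  ext α
  rw [Pi.smul_apply, smul_eq_mul, cd, cd, ← coeff_C_mul]
  congr 1
  rw [diagf, diagf, Finset.mul_sum]
  refine Finset.sum_congr rfl fun j _ => ?_
  rw [C_mul]
  ring

/-- The restriction of a polynomial to the ray of `v`. -/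
noncomputable def ray (v : Mon n d → ℂ) (P : MvPolynomial (Mon n d) ℂ) : Polynomial ℂ :=
  aeval (fun α => Polynomial.X * Polynomial.C (v α)) P

lemma eval_ray (v : Mon n d → ℂ) (P : MvPolynomial (Mon n d) ℂ) (l : ℂ) :
    (ray v P).eval l = eval (l • v) P := by
  have h : ∀ x : Polynomial ℂ, x.eval l = (Polynomial.aeval l : Polynomial ℂ →ₐ[ℂ] ℂ) x := by
    intro x
    rw [Polynomial.coe_aeval_eq_eval]
  rw [h, ray, ← AlgHom.comp_apply, comp_aeval, ← aeval_eq_eval]
  congr 2
  ext α
  simp
  exact mul_comm _ _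

/-- All diagonal forms with nonzero coefficients give the same value to a common factor. -/
lemma const_all_diag (hd : 3 ≤ d) (Δ π : MvPolynomial (Mon n d) ℂ)
    (E : Fin n → MvPolynomial (Mon n d) ℂ) (hΔ : ∀ v : Mon n d → ℂ, (∃ p : Fin n → ℂ, p ≠ 0 ∧
      ∀ l, eval p (pderiv l (form v)) = 0) → eval v Δ = 0)
    (hE : ∀ i, DD (sel d i) (muE n d) = Δ * E i) (hπ : ∀ i, π ∣ E i) (c c' : Fin n → ℂ)
    (hc : ∀ j, c j ≠ 0) (hc' : ∀ j, c' j ≠ 0) : eval (cd d c) π = eval (cd d c') π := by
  have key : ∀ S : Finset (Fin n), eval (cd d fun j => if j ∈ S then c' j else c j) π =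
      eval (cd d c) π := by
    intro S
    induction S using Finset.induction_on with
    | empty => simp
    | insert a S ha ih =>
      have h1 : (fun j => if j ∈ insert a S then c' j else c j) =
          Function.update (fun j => if j ∈ S then c' j else c j) a (c' a) := by
        ext j
        by_cases hj : j = a
        · subst hj; rw [Function.update_self, if_pos (Finset.mem_insert_self _ _)]
        · rw [Function.update_of_ne hj]
          congr 1
          rw [Finset.mem_insert, or_iff_right hj]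
      have h2 : ∀ j, j ≠ a → (fun j => if j ∈ S then c' j else c j) j ≠ 0 := by
        intro j _
        dsimp only
        split_ifs
        · exact hc' j
        · exact hc j
      rw [h1, const_diag hd a _ h2 Δ (E a) π hΔ (hE a) (hπ a) (c' a), ← ih,
        ← const_diag hd a _ h2 Δ (E a) π hΔ (hE a) (hπ a)
          ((fun j => if j ∈ S then c' j else c j) a), Function.update_eq_self]
  have := key Finset.univ
  simp only [Finset.mem_univ, if_true] at this
  exact this.symm

/-- A common factor of the cofactors is a unit. -/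
lemma isUnit_of_dvd (hn : 1 ≤ n) (hd : 3 ≤ d) (Δ π : MvPolynomial (Mon n d) ℂ)
    (E : Fin n → MvPolynomial (Mon n d) ℂ) (hΔ : ∀ v : Mon n d → ℂ, (∃ p : Fin n → ℂ, p ≠ 0 ∧
      ∀ l, eval p (pderiv l (form v)) = 0) → eval v Δ = 0)
    (hE : ∀ i, DD (sel d i) (muE n d) = Δ * E i) (hπ : ∀ i, π ∣ E i) : IsUnit π := by
  have i : Fin n := ⟨0, hn⟩
  have hπD : π ∣ DD (sel d i) (muE n d) := by
    rw [hE i]; exact Dvd.dvd.mul_left (hπ i) _
  have hne : ∀ v, eval v (DD (sel d i) (muE n d)) ≠ 0 → eval v π ≠ 0 := by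
    intro v hv h0
    obtain ⟨x, hx⟩ := hπD
    rw [hx, map_mul, h0, zero_mul] at hv
    exact hv rfl
  set b := eval (cd d fun _ => (1 : ℂ)) π with hb
  have hb0 : b ≠ 0 := hne _ (DD_diag_ne hd i _ fun _ => one_ne_zero)
  -- the value at `0`
  have h0 : eval (0 : Mon n d → ℂ) π = b := by
    have h1 : (ray (cd d fun _ => (1 : ℂ)) π - Polynomial.C b) * Polynomial.X = 0 := by
      apply Polynomial.funext
      intro l
      rw [Polynomial.eval_mul, Polynomial.eval_sub, eval_ray, Polynomial.eval_C,
        Polynomial.eval_X, Polynomial.eval_zero]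
      by_cases hl : l = 0
      · rw [hl, mul_zero]
      · rw [← cd_smul, hb, const_all_diag hd Δ π E hΔ hE hπ (fun _ => l * 1) (fun _ => 1)
          (fun _ => by rwa [mul_one]) (fun _ => one_ne_zero), sub_self, zero_mul]
    have h2 := sub_eq_zero.1 ((mul_eq_zero.1 h1).resolve_right Polynomial.X_ne_zero)
    have h3 := congrArg (Polynomial.eval 0) h2
    rwa [eval_ray, zero_smul, Polynomial.eval_C] at h3
  have h4 : (π - C b) * DD (sel d i) (muE n d) = 0 := by
    apply MvPolynomial.funext
    intro v
    rw [map_mul, map_sub, eval_C, map_zero]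
    by_cases hv : eval v (DD (sel d i) (muE n d)) = 0
    · rw [hv, mul_zero]
    have h5 : ∀ l : ℂ, (ray v π).eval l ≠ 0 := by
      intro l
      rw [eval_ray]
      by_cases hl : l = 0
      · rw [hl, zero_smul, h0]; exact hb0
      · exact hne _ (DD_smul_ne i v l hl hv)
    have h6 : (ray v π).degree = 0 := by
      by_contra h7
      obtain ⟨z, hz⟩ := IsAlgClosed.exists_root _ h7
      exact h5 z hz
    have h8 := Polynomial.eq_C_of_degree_eq_zero h6
    have h9 : (ray v π).eval 1 = (ray v π).eval 0 := by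
      rw [h8, Polynomial.eval_C, Polynomial.eval_C]
    rw [eval_ray, eval_ray, one_smul, zero_smul, h0] at h9
    rw [h9, sub_self, zero_mul]
  have hD0 : DD (sel d i) (muE n d) ≠ 0 := by
    intro h
    apply DD_diag_ne hd i (fun _ => (1 : ℂ)) fun _ => one_ne_zero
    rw [h, map_zero]
  have h5 := sub_eq_zero.1 ((mul_eq_zero.1 h4).resolve_right hD0)
  rw [h5]
  exact (isUnit_iff_ne_zero.2 hb0).map C

/-- The discriminant divides the determinants. -/
lemma dvd_of_zero {σ : Type*} [Finite σ] {Δ D : MvPolynomial σ ℂ} (hirr : Irreducible Δ)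
    (h : ∀ v, eval v Δ = 0 → eval v D = 0) : Δ ∣ D := by
  have h1 : D ∈ vanishingIdeal ℂ (zeroLocus ℂ (Ideal.span {Δ})) := by
    rw [mem_vanishingIdeal_iff]
    intro v hv
    rw [mem_zeroLocus_iff] at hv
    have := hv Δ (Ideal.subset_span rfl)
    rw [aeval_eq_eval] at this ⊢
    exact h v this
  rw [vanishingIdeal_zeroLocus_eq_radical] at h1
  have h2 : (Ideal.span {Δ}).IsPrime := by
    rw [Ideal.span_singleton_prime hirr.ne_zero]
    exact hirr.prime
  rw [h2.radical] at h1
  exact Ideal.mem_span_singleton.1 h1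

/-- Divisibility in a unique factorization domain from a family without common factor. -/
lemma dvd_of_family {R : Type*} [CommRing R] [IsDomain R] [UniqueFactorizationMonoid R]
    {ι : Type*} [Fintype ι] (E : ι → R) (hE : ∀ π, (∀ i, π ∣ E i) → IsUnit π) (a b : R)
    (h : ∀ i, a ∣ b * E i) : a ∣ b := by
  let _ : StrongNormalizationMonoid R := UniqueFactorizationMonoid.strongNormalizationMonoid
  let _ : NormalizedGCDMonoid R := UniqueFactorizationMonoid.toNormalizedGCDMonoid R
  have h1 : a ∣ Finset.univ.gcd fun i => b * E i := Finset.dvd_gcd fun i _ => h i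
  have h2 : IsUnit (Finset.univ.gcd E) := hE _ fun i => Finset.gcd_dvd (Finset.mem_univ i)
  have h4 := h1.trans (Finset.gcd_mul_left' Finset.univ E b).dvd
  exact h2.dvd_mul_right.1 h4

end Pool.Agent.N172.AF
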