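import Pool.Agent.N172.AF.Def

/-! # `n` forms of degree `δ` in `n` variables do not span the forms of degree `n(δ-1)` -/

set_option autoImplicit false

namespace Pool.Agent.N172.AF

open MvPolynomial Finset

variable {n : ℕ} {K : Type*} [Field K]

/-- The exponent `δ(κ+1)-1`. -/
noncomputable def ex (δ : ℕ) (κ : Fin n →₀ ℕ) : Fin n →₀ ℕ :=
  Finsupp.equivFunOnFinite.symm fun j => δ * (κ j + 1) - 1

lemma ex_apply (δ : ℕ) (κ : Fin n →₀ ℕ) (j : Fin n) : ex δ κ j = δ * (κ j + 1) - 1 := rfl

/-- The coefficients of the formal residue. -/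
noncomputable def om (δ : ℕ) (G : Fin n → MvPolynomial (Fin n) K) (k : ℕ)
    (h : MvPolynomial (Fin n) K) : K :=
  ∑ κ : Mon n k, coeff (ex δ κ.1) (h * ∏ j, G j ^ (κ.1 j))

lemma om_add (δ : ℕ) (G : Fin n → MvPolynomial (Fin n) K) (k : ℕ)
    (h h' : MvPolynomial (Fin n) K) : om δ G k (h + h') = om δ G k h + om δ G k h' := by
  simp [om, add_mul, Finset.sum_add_distrib]

lemma om_smul (δ : ℕ) (G : Fin n → MvPolynomial (Fin n) K) (k : ℕ) (a : K)
    (h : MvPolynomial (Fin n) K) : om δ G k (a • h) = a * om δ G k h := by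
  simp [om, Finset.mul_sum, coeff_smul]

lemma coeff_X_pow_mul_ex {δ : ℕ} (hδ : 1 ≤ δ) (i : Fin n) (κ : Fin n →₀ ℕ)
    (p : MvPolynomial (Fin n) K) :
    coeff (ex δ κ) (X i ^ δ * p) = if 1 ≤ κ i then coeff (ex δ κ - Finsupp.single i δ) p else 0 := by
  classical
  rw [X_pow_eq_monomial, coeff_monomial_mul']
  have h1 : Finsupp.single i δ ≤ ex δ κ ↔ 1 ≤ κ i := by
    rw [Finsupp.single_le_iff, ex_apply]
    constructor
    · intro h
      by_contra h2
      have h3 : κ i = 0 := by omega
      rw [h3] at h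
      omega
    · intro h
      obtain ⟨m, hm⟩ := Nat.exists_eq_add_of_le h
      rw [hm]
      have h4 : δ * (1 + m + 1) = δ + δ + δ * m := by ring
      have : 0 ≤ δ * m := Nat.zero_le _
      omega
  simp only [h1, one_mul]

lemma om_zero_X {δ : ℕ} (hδ : 1 ≤ δ) (G : Fin n → MvPolynomial (Fin n) K) (i : Fin n)
    (g : MvPolynomial (Fin n) K) : om δ G 0 (X i ^ δ * g) = 0 := by
  unfold om
  refine Finset.sum_eq_zero fun κ _ => ?_
  rw [mul_assoc, coeff_X_pow_mul_ex hδ, if_neg]
  have h1 : κ.1 = 0 := (Finsupp.degree_eq_zero_iff κ.1).1 κ.2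
  rw [h1]
  simp

lemma om_succ_X {δ : ℕ} (hδ : 1 ≤ δ) (G : Fin n → MvPolynomial (Fin n) K) (k : ℕ) (i : Fin n)
    (g : MvPolynomial (Fin n) K) : om δ G (k + 1) (X i ^ δ * g) = om δ G k (G i * g) := by
  classical
  unfold om
  have h1 : ∀ κ : Mon n (k + 1), coeff (ex δ κ.1) (X i ^ δ * g * ∏ j, G j ^ (κ.1 j)) =
      if 1 ≤ κ.1 i then coeff (ex δ κ.1 - Finsupp.single i δ) (g * ∏ j, G j ^ (κ.1 j)) else 0 := by
    intro κ
    rw [mul_assoc, coeff_X_pow_mul_ex hδ]
  rw [Finset.sum_congr rfl fun κ _ => h1 κ, ← Finset.sum_filter]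
  symm
  refine Finset.sum_bij (fun (κ : Mon n k) _ => (⟨κ.1 + Finsupp.single i 1, by
    rw [map_add, κ.2, Finsupp.degree_single]⟩ : Mon n (k + 1))) ?_ ?_ ?_ ?_
  · intro κ _
    simp
  · intro κ _ κ' _ h
    have h2 := congrArg Subtype.val h
    simp only [add_left_inj] at h2
    exact Subtype.ext h2
  · intro κ hκ
    rw [Finset.mem_filter] at hκ
    have h3 : Finsupp.single i 1 ≤ κ.1 := by
      rw [Finsupp.single_le_iff]; exact hκ.2
    refine ⟨⟨κ.1 - Finsupp.single i 1, ?_⟩, Finset.mem_univ _, ?_⟩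
    · have h4 := congrArg Finsupp.degree (tsub_add_cancel_of_le h3)
      rw [map_add, κ.2, Finsupp.degree_single] at h4
      omega
    · exact Subtype.ext (tsub_add_cancel_of_le h3)
  · intro κ _
    have h5 : ex δ (κ.1 + Finsupp.single i 1) - Finsupp.single i δ = ex δ κ.1 := by
      ext j
      rw [Finsupp.tsub_apply, ex_apply, ex_apply, Finsupp.add_apply]
      by_cases hj : j = i
      · subst hj
        rw [Finsupp.single_eq_same, Finsupp.single_eq_same]
        have h6 : δ * (κ.1 j + 1 + 1) = δ * (κ.1 j + 1) + δ := by ring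
        have h7 : 1 ≤ δ * (κ.1 j + 1) := Nat.mul_pos hδ (Nat.succ_pos _)
        omega
      · rw [Finsupp.single_eq_of_ne hj, Finsupp.single_eq_of_ne hj]
        simp
    have h8 : ∏ j, G j ^ ((κ.1 + Finsupp.single i 1 : Fin n →₀ ℕ) j) = G i * ∏ j, G j ^ (κ.1 j) := by
      simp only [Finsupp.add_apply, pow_add, Finset.prod_mul_distrib]
      rw [mul_comm]
      congr 1
      rw [Finset.prod_eq_single i]
      · simp
      · intro b _ hb
        rw [Finsupp.single_eq_of_ne hb, pow_zero]
      · intro h; exact absurd (Finset.mem_univ _) h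
    simp only [h5, h8]
    congr 1
    ring

/-- The formal residue. -/
noncomputable def Om (δ : ℕ) (G : Fin n → MvPolynomial (Fin n) K) (h : MvPolynomial (Fin n) K) :
    PowerSeries K := PowerSeries.mk fun k => om δ G k h

lemma Om_X {δ : ℕ} (hδ : 1 ≤ δ) (G : Fin n → MvPolynomial (Fin n) K) (i : Fin n)
    (g : MvPolynomial (Fin n) K) :
    Om δ G (X i ^ δ * g) = PowerSeries.X * Om δ G (G i * g) := by
  ext k
  cases k with
  | zero =>
    rw [PowerSeries.coeff_zero_X_mul, Om, PowerSeries.coeff_mk, om_zero_X hδ]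
  | succ k =>
    rw [PowerSeries.coeff_succ_X_mul, Om, Om, PowerSeries.coeff_mk, PowerSeries.coeff_mk,
      om_succ_X hδ]

lemma Om_sum {ν : ℕ} (δ : ℕ) (G : Fin n → MvPolynomial (Fin n) K) {h : MvPolynomial (Fin n) K}
    (hh : h.IsHomogeneous ν) :
    Om δ G h = ∑ γ : Mon n ν, Om δ G (monomial γ.1 1) * PowerSeries.C (coeff γ.1 h) := by
  ext k
  rw [map_sum, Om, PowerSeries.coeff_mk]
  have hlin : IsLinearMap K (om δ G k) := ⟨om_add δ G k, fun a h => om_smul δ G k a h⟩
  conv_lhs => rw [eq_sum_mon hh]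
  have h2 := map_sum (hlin.mk' (om δ G k)) (fun γ : Mon n ν => monomial γ.1 (coeff γ.1 h))
    Finset.univ
  simp only [IsLinearMap.mk'_apply] at h2
  rw [h2]
  refine Finset.sum_congr rfl fun γ _ => ?_
  rw [mul_comm, PowerSeries.coeff_C_mul, Om, PowerSeries.coeff_mk, ← om_smul]
  congr 1
  rw [smul_monomial, smul_eq_mul, mul_one]

theorem rank_lemma {δ ν : ℕ} (hδ : 1 ≤ δ) (hν : ν = n * (δ - 1))
    (F : Fin n → MvPolynomial (Fin n) K) (hF : ∀ i, (F i).IsHomogeneous δ)
    (B : Mon n ν → (Fin n →₀ ℕ) × Fin n) (hB : ∀ β, (B β).1.degree + δ = ν) :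
    (Matrix.of fun γ β : Mon n ν => coeff γ.1 (monomial (B β).1 1 * F (B β).2)).det = 0 := by
  classical
  let G : Fin n → MvPolynomial (Fin n) K := fun i => X i ^ δ - F i
  have hG : ∀ i, (G i).IsHomogeneous δ := fun i => (isHomogeneous_X_pow i δ).sub (hF i)
  let a : Mon n ν → Mon n ν → K := fun γ β => coeff γ.1 (monomial (B β).1 1 * X (B β).2 ^ δ)
  let b : Mon n ν → Mon n ν → K := fun γ β => coeff γ.1 (monomial (B β).1 1 * G (B β).2)
  have hP : ∀ β, (monomial (B β).1 (1 : K) * X (B β).2 ^ δ).IsHomogeneous ν := by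
    intro β
    have := (isHomogeneous_monomial (1 : K) (rfl : (B β).1.degree = (B β).1.degree)).mul
      (isHomogeneous_X_pow (R := K) (B β).2 δ)
    rwa [hB β] at this
  have hQ : ∀ β, (monomial (B β).1 (1 : K) * G (B β).2).IsHomogeneous ν := by
    intro β
    have := (isHomogeneous_monomial (1 : K) (rfl : (B β).1.degree = (B β).1.degree)).mul
      (hG (B β).2)
    rwa [hB β] at this
  let P : Matrix (Mon n ν) (Mon n ν) (Polynomial K) := Matrix.of fun γ β =>
    Polynomial.C (a γ β) - Polynomial.X * Polynomial.C (b γ β)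
  let M : Matrix (Mon n ν) (Mon n ν) (PowerSeries K) := Matrix.of fun γ β =>
    PowerSeries.C (a γ β) - PowerSeries.X * PowerSeries.C (b γ β)
  have hMP : M = (Polynomial.coeToPowerSeries.ringHom (R := K)).mapMatrix P := by
    ext1 γ β
    rw [RingHom.mapMatrix_apply, Matrix.map_apply]
    simp only [M, P, Matrix.of_apply]
    simp
    exact mul_comm _ _
  have hM : M.det = 0 := by
    rw [← Matrix.exists_vecMul_eq_zero_iff]
    refine ⟨fun γ => Om δ G (monomial γ.1 1), ?_, ?_⟩
    · intro h0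
      have hdeg : (Finsupp.equivFunOnFinite.symm fun _ : Fin n => δ - 1).degree = ν := by
        rw [Finsupp.degree_eq_sum]
        simp [hν]
      have h1 := congrFun h0 ⟨_, hdeg⟩
      have h2 := congrArg (PowerSeries.coeff 0) h1
      rw [Om, PowerSeries.coeff_mk] at h2
      simp only [Pi.zero_apply, map_zero] at h2
      have h3 : om δ G 0 (monomial (Finsupp.equivFunOnFinite.symm fun _ : Fin n => δ - 1) 1) = 1 := by
        unfold om
        rw [Finset.sum_eq_single (⟨0, by simp⟩ : Mon n 0)]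
        · have : ex δ (0 : Fin n →₀ ℕ) = Finsupp.equivFunOnFinite.symm fun _ : Fin n => δ - 1 := by
            ext j
            rw [ex_apply]
            simp
          simp [this]
        · intro κ _ hκ
          exact absurd (Subtype.ext ((Finsupp.degree_eq_zero_iff κ.1).1 κ.2)) hκ
        · intro h; exact absurd (Finset.mem_univ _) h
      rw [h3] at h2
      exact one_ne_zero h2
    · ext1 β
      simp only [Matrix.vecMul, dotProduct, Pi.zero_apply, M, Matrix.of_apply]
      have h1 := Om_sum δ G (hP β)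
      have h2 := Om_sum δ G (hQ β)
      have h3 : Om δ G (monomial (B β).1 1 * X (B β).2 ^ δ) =
          PowerSeries.X * Om δ G (monomial (B β).1 1 * G (B β).2) := by
        rw [mul_comm, Om_X hδ, mul_comm (G _)]
      calc ∑ γ : Mon n ν, Om δ G (monomial γ.1 1) *
            (PowerSeries.C (a γ β) - PowerSeries.X * PowerSeries.C (b γ β))
          = (∑ γ : Mon n ν, Om δ G (monomial γ.1 1) * PowerSeries.C (a γ β)) -
            PowerSeries.X * ∑ γ : Mon n ν, Om δ G (monomial γ.1 1) * PowerSeries.C (b γ β) := by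
            rw [Finset.mul_sum, ← Finset.sum_sub_distrib]
            refine Finset.sum_congr rfl fun γ _ => ?_
            ring
        _ = 0 := by
            rw [← h1, ← h2, h3, sub_self]
  have hPdet : P.det = 0 := by
    rw [hMP, ← RingHom.map_det] at hM
    have hinj : Function.Injective (Polynomial.coeToPowerSeries.ringHom (R := K)) :=
      Polynomial.coe_injective K
    exact hinj (by rw [hM, map_zero])
  have h4 := congrArg (Polynomial.evalRingHom (1 : K)) hPdet
  rw [RingHom.map_det, map_zero] at h4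
  convert h4 using 2
  ext1 γ β
  rw [RingHom.mapMatrix_apply, Matrix.map_apply]
  simp only [Matrix.of_apply, P, a, b, G,
    Polynomial.coe_evalRingHom, Polynomial.eval_sub, Polynomial.eval_C, Polynomial.eval_mul,
    Polynomial.eval_X, one_mul]
  rw [mul_sub, coeff_sub]
  ring

end Pool.Agent.N172.AF
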